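import Pool.Agent.H590Z.Fug.Cfg

set_option autoImplicit false
set_option linter.unusedSectionVars false

open Filter Topology Finset ComplexConjugate

namespace Pool.Agent.H590Z.Fug

lemma four_points {v : ℂ} (hv : ‖v‖ < 1) : ∃ (u : Fin 4 → ℂ) (w : Fin 4 → ℝ),
    (∀ j, ‖u j‖ = 1) ∧ (∀ j, 0 < w j) ∧ ∑ j, w j = 1 ∧ ∑ j, (w j : ℂ) * u j = v ∧
    ∀ α β γ : ℂ, (∀ j, α + β * u j + γ * conj (u j) = 0) → α = 0 ∧ β = 0 ∧ γ = 0 := by
  set r := ‖v‖ with hr
  have hr0 : 0 ≤ r := norm_nonneg v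
  set ω := Complex.exp (Complex.arg v * Complex.I) with hω
  have hvω : (r : ℂ) * ω = v := Complex.norm_mul_exp_arg_mul_I v
  have hω1 : ‖ω‖ = 1 := Complex.norm_exp_ofReal_mul_I _
  have hω0 : ω ≠ 0 := Complex.exp_ne_zero _
  have hωc : conj ω ≠ 0 := by simpa using hω0
  set s := Real.sqrt (1 - r ^ 2) with hs
  have h1 : 0 < 1 - r ^ 2 := by nlinarith
  have hs0 : 0 < s := Real.sqrt_pos.2 h1
  have hs2 : s ^ 2 = 1 - r ^ 2 := Real.sq_sqrt h1.le
  have hn1 : ‖(r : ℂ) + s * Complex.I‖ = 1 := by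
    rw [Complex.norm_add_mul_I, hs2]; simp
  have hn2 : ‖(r : ℂ) - s * Complex.I‖ = 1 := by
    have : (r : ℂ) - s * Complex.I = conj ((r : ℂ) + s * Complex.I) := by
      simp [sub_eq_add_neg]
    rw [this, Complex.norm_conj, hn1]
  refine ⟨![ω, -ω, ω * (r + s * Complex.I), ω * (r - s * Complex.I)],
    ![(1 + r) / 4, (1 - r) / 4, 1 / 4, 1 / 4], ?_, ?_, ?_, ?_, ?_⟩
  · intro j; fin_cases j <;> simp [hω1, hn1, hn2]
  · intro j; fin_cases j <;> simp <;> linarith
  · simp [Fin.sum_univ_four]; ring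
  · simp [Fin.sum_univ_four]; rw [← hvω]; ring
  · intro α β γ h
    have h0 := h 0
    have h1 := h 1
    have h2 := h 2
    simp at h0 h1 h2
    have hα : α = 0 := by linear_combination (h0 + h1) / 2
    have hsC : (s : ℂ) ≠ 0 := by exact_mod_cast hs0.ne'
    have h3 : β * ω * (2 * s * Complex.I) = 0 := by
      linear_combination h2 + (-(r : ℂ) + s * Complex.I) * (h0 - h1) / 2 - hα
    have hβ : β = 0 := by
      rcases mul_eq_zero.1 h3 with h4 | h4
      · exact (mul_eq_zero.1 h4).resolve_right hω0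
      · exfalso; revert h4; simp [hsC]
    refine ⟨hα, hβ, ?_⟩
    rw [hα, hβ] at h0
    simpa [hω0] using h0

lemma Cfg.orthL (c : Cfg) {a b : ℝ} (ha : a ∈ c.L) (hb : b ∈ c.L) :
    c.F (a - b) = if a = b then 1 else 0 := by
  have := c.orth _ (sub_mem_dif ha hb)
  simpa [Cfg.F, sub_eq_zero] using this

lemma Cfg.coef_zero (c : Cfg) (g : c.L → ℂ) {s : ℝ} (hs : s = 1 ∨ s = -1)
    (h : ∀ i, ∑ a : c.L, g a * ex (s * (a * c.x i)) = 0) (b : c.L) : g b = 0 := by
  classical
  have h1 : ∑ i, (c.p i : ℂ) * ex (-(s * (b * c.x i))) * ∑ a : c.L, g a * ex (s * (a * c.x i))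
      = 0 := by simp only [h, mul_zero, Finset.sum_const_zero]
  have h2 : ∀ a : c.L, c.F (s * (a - b)) = if a = b then 1 else 0 := by
    intro a
    rcases hs with rfl | rfl
    · rw [one_mul, c.orthL a.2 b.2]; simp only [Subtype.coe_inj]
    · have : (-1 : ℝ) * (a - b) = b - a := by ring
      rw [this, c.orthL b.2 a.2]; simp only [Subtype.coe_inj, eq_comm]
  have h3 : ∑ i, (c.p i : ℂ) * ex (-(s * (b * c.x i))) * ∑ a : c.L, g a * ex (s * (a * c.x i))
      = ∑ a : c.L, g a * c.F (s * (a - b)) := by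
    simp only [Cfg.F, ft, Finset.mul_sum]
    rw [Finset.sum_comm]
    refine Finset.sum_congr rfl fun a _ => Finset.sum_congr rfl fun i _ => ?_
    have : s * (a - b) * c.x i = -(s * (b * c.x i)) + s * (a * c.x i) := by ring
    rw [this, ex_add]; ring
  rw [h3] at h1
  simpa [h2] using h1

lemma exists_large_not_mem_span (L : Finset ℝ) {P : ℝ → Prop} (hP : ∀ᶠ l in atTop, P l) :
    ∃ l, P l ∧ l ∉ Submodule.span ℚ (L : Set ℝ) := by
  have hc : (Submodule.span ℚ (L : Set ℝ) : Set ℝ).Countable := by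
    have : Countable (Submodule.span ℚ (L : Set ℝ)) := by
      have : Module.Finite ℚ (Submodule.span ℚ (L : Set ℝ)) :=
        Module.Finite.span_of_finite ℚ L.finite_toSet
      exact Finsupp.Countable.of_moduleFinite (R := ℚ)
    exact this
  obtain ⟨M, hM⟩ := Filter.eventually_atTop.1 hP
  obtain ⟨l, hl1, hl2⟩ := (hc.dense_compl ℝ).inter_open_nonempty (Set.Ioi M) isOpen_Ioi
    ⟨M + 1, by simp⟩
  exact ⟨l, hM l (le_of_lt hl1), hl2⟩

lemma step_add (c : Cfg) (v : c.ι → ℂ) (hv : ∀ i, ‖v i‖ < 1)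
    (hperp : ∀ a ∈ c.L, ∑ i, (c.p i : ℂ) * (v i * ex (-(a * c.x i))) = 0) (R ξ : ℝ) {η : ℝ}
    (hη : 0 < η) :
    ∃ c' : Cfg, ∃ l, l ∉ c.L ∧ c'.L = insert l c.L ∧ Ext c c' R η ∧
      ‖c'.F (ξ - l) - ∑ i, (c.p i : ℂ) * (ex (ξ * c.x i) * conj (v i))‖ ≤ η := by
  classical
  choose u w hu hw hw1 hwu hind using fun i => four_points (hv i)
  choose θ hθ using fun i j => ex_surj (hu i j)
  let X : ℝ → c.ι × Fin 4 → ℝ := fun l z => c.x z.1 + Int.fract (θ z.1 z.2 - l * c.x z.1) / l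
  let X₀ : c.ι × Fin 4 → ℝ := fun z => c.x z.1
  let P₀ : c.ι × Fin 4 → ℝ := fun z => c.p z.1 * w z.1 z.2
  have hX : Tendsto X atTop (𝓝 X₀) := by
    rw [tendsto_pi_nhds]
    intro z
    have h1 : Tendsto (fun l : ℝ => Int.fract (θ z.1 z.2 - l * c.x z.1) / l) atTop (𝓝 0) := by
      refine squeeze_zero' ?_ ?_ tendsto_inv_atTop_zero
      · filter_upwards [eventually_gt_atTop 0] with l hl
        exact div_nonneg (Int.fract_nonneg _) hl.le
      · filter_upwards [eventually_gt_atTop 0] with l hl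
        rw [← one_div]
        exact div_le_div_of_nonneg_right (Int.fract_lt_one _).le hl.le
    simpa using tendsto_const_nhds.add h1
  have hXu : ∀ l : ℝ, 0 < l → ∀ z, ex (l * X l z) = u z.1 z.2 := by
    intro l hl z
    have : l * X l z = θ z.1 z.2 + ((-⌊θ z.1 z.2 - l * c.x z.1⌋ : ℤ) : ℝ) := by
      simp only [X, Int.fract]
      field_simp
      push_cast
      ring
    rw [this, ex_add, ex_int, mul_one, hθ]
  let κ := dif c.L ⊕ (c.L ⊕ c.L)
  let H : (c.ι × Fin 4 → ℝ) → κ → c.ι × Fin 4 → ℂ := fun Y k z =>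
    Sum.elim (fun d : dif c.L => ex (d * Y z))
      (Sum.elim (fun a : c.L => u z.1 z.2 * ex (-(a * Y z)))
        (fun a : c.L => conj (u z.1 z.2) * ex (a * Y z))) k
  have hH : Continuous H := by
    refine continuous_pi fun k => continuous_pi fun z => ?_
    rcases k with d | a | a <;> simp only [H, Sum.elim_inl, Sum.elim_inr] <;> fun_prop
  have hG : Tendsto (fun l => H (X l)) atTop (𝓝 (H X₀)) := (hH.tendsto _).comp hX
  have hI : LinearIndependent ℂ (H X₀) := by
    rw [Fintype.linearIndependent_iff]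
    intro g hg
    have h1 : ∀ i, (∑ d : dif c.L, g (Sum.inl d) * ex (d * c.x i)) = 0 ∧
        (∑ a : c.L, g (Sum.inr (Sum.inl a)) * ex (-1 * (a * c.x i))) = 0 ∧
        (∑ a : c.L, g (Sum.inr (Sum.inr a)) * ex (1 * (a * c.x i))) = 0 := by
      intro i
      apply hind i
      intro j
      have h2 := congrFun hg (i, j)
      simp only [κ, Fintype.sum_sum_type, Finset.sum_apply, Pi.smul_apply, H,
        Sum.elim_inl, Sum.elim_inr, smul_eq_mul, Pi.zero_apply, X₀] at h2
      rw [← h2, add_assoc, Finset.sum_mul, Finset.sum_mul]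
      congr 2
      · refine Finset.sum_congr rfl fun a _ => ?_
        rw [neg_one_mul]; ring
      · refine Finset.sum_congr rfl fun a _ => ?_
        rw [one_mul]; ring
    rintro (d | a | a)
    · refine Fintype.linearIndependent_iff.1 c.indep (fun d => g (Sum.inl d)) ?_ d
      funext i
      simpa using (h1 i).1
    · exact c.coef_zero (fun a => g (Sum.inr (Sum.inl a))) (Or.inr rfl) (fun i => (h1 i).2.1) a
    · exact c.coef_zero (fun a => g (Sum.inr (Sum.inr a))) (Or.inl rfl) (fun i => (h1 i).2.2) a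
  let σ : κ → κ := Sum.elim (fun d => Sum.inl ⟨-d, neg_mem_dif d.2⟩)
    (Sum.elim (fun a => Sum.inr (Sum.inr a)) (fun a => Sum.inr (Sum.inl a)))
  have hσ : ∀ Y k z, H Y (σ k) z = conj (H Y k z) := by
    rintro Y (d | a | a) z
    · simp [H, σ, ex_neg]
    · simp [H, σ, ex_neg]
    · simp [H, σ, ex_neg]
  let cc : κ → ℂ := Sum.elim (fun d => if (d : ℝ) = 0 then 1 else 0) (fun _ => 0)
  have hcc : ∀ k, cc (σ k) = conj (cc k) := by
    rintro (d | a | a)
    · by_cases hd : (d : ℝ) = 0 <;> simp [cc, σ, hd]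
    · simp [cc, σ]
    · simp [cc, σ]
  have hsum1 : ∀ f : c.ι → ℂ, ∑ z : c.ι × Fin 4, (P₀ z : ℂ) * f z.1 = ∑ i, (c.p i : ℂ) * f i := by
    intro f
    rw [Fintype.sum_prod_type]
    refine Finset.sum_congr rfl fun i _ => ?_
    have h1 : ∑ j, (w i j : ℂ) = 1 := by exact_mod_cast hw1 i
    simp only [P₀]
    push_cast
    rw [← Finset.sum_mul, ← Finset.mul_sum, h1, mul_one]
  have hsum2 : ∀ f : c.ι → ℂ, ∑ z : c.ι × Fin 4, (P₀ z : ℂ) * (u z.1 z.2 * f z.1)
      = ∑ i, (c.p i : ℂ) * (v i * f i) := by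
    intro f
    rw [Fintype.sum_prod_type]
    refine Finset.sum_congr rfl fun i _ => ?_
    simp only [P₀]
    push_cast
    rw [← hwu i, Finset.sum_mul, Finset.mul_sum]
    refine Finset.sum_congr rfl fun j _ => by ring
  have hsum3 : ∀ f : c.ι → ℂ, ∑ z : c.ι × Fin 4, (P₀ z : ℂ) * (conj (u z.1 z.2) * f z.1)
      = ∑ i, (c.p i : ℂ) * (conj (v i) * f i) := by
    intro f
    have := congrArg conj (hsum2 (fun i => conj (f i)))
    simpa [map_sum] using this
  have hp : ∀ k, ∑ z, (P₀ z : ℂ) * H X₀ k z = cc k := by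
    rintro (d | a | a)
    · simp only [H, cc, Sum.elim_inl, X₀]
      rw [hsum1 (fun i => ex (d * c.x i))]
      exact c.orth d d.2
    · simp only [H, cc, Sum.elim_inl, Sum.elim_inr, X₀]
      rw [hsum2 (fun i => ex (-(a * c.x i)))]
      exact hperp a a.2
    · simp only [H, cc, Sum.elim_inr, X₀]
      rw [hsum3 (fun i => ex (a * c.x i))]
      have := congrArg conj (hperp a a.2)
      simpa [map_sum, ex_neg] using this
  obtain ⟨P, hP, hev⟩ := fix hG hI (fun l => hσ (X l)) hcc hp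
  have hP0 : ∀ z, 0 < P₀ z := fun z => mul_pos (c.p_pos _) (hw _ _)
  have e1 := pos_eventually hP hP0
  have e2 := ioo_eventually hX (fun z => c.x_mem z.1)
  have e3 := ft_close hX hP R hη
  have e4 : ∀ᶠ l in atTop, ‖∑ z, (P l z : ℂ) * (conj (u z.1 z.2) * ex (ξ * X l z))
      - ∑ i, (c.p i : ℂ) * (ex (ξ * c.x i) * conj (v i))‖ ≤ η := by
    let B : (c.ι × Fin 4 → ℝ) × (c.ι × Fin 4 → ℝ) → ℂ := fun y =>
      ∑ z, (y.2 z : ℂ) * (conj (u z.1 z.2) * ex (ξ * y.1 z))
    have hB : Continuous B := by fun_prop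
    have hB0 : B (X₀, P₀) = ∑ i, (c.p i : ℂ) * (ex (ξ * c.x i) * conj (v i)) := by
      simp only [B, X₀]
      rw [hsum3 (fun i => ex (ξ * c.x i))]
      simp_rw [mul_comm (conj (v _))]
    have h1 := (hB.tendsto _).comp (hX.prodMk_nhds hP)
    rw [hB0, tendsto_iff_norm_sub_tendsto_zero] at h1
    exact (h1.eventually (ge_mem_nhds hη))
  have e5 : ∀ᶠ l : ℝ in atTop, ∀ a ∈ c.L, |R| + 1 < l - a := by
    rw [Filter.eventually_all_finset]
    intro a _
    filter_upwards [eventually_gt_atTop (|R| + 1 + a)] with l hl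
    linarith
  obtain ⟨l, ⟨hl0, ⟨ho, hli⟩, h1, h2, h3, h4, h5⟩, hspan⟩ := exists_large_not_mem_span c.L
    ((eventually_gt_atTop 0).and (hev.and (e1.and (e2.and (e3.and (e4.and e5))))))
  have hR0 := abs_nonneg R
  have hRle := le_abs_self R
  let fr : κ → ℝ := Sum.elim (fun d => (d : ℝ)) (Sum.elim (fun a => l - a) (fun a => a - l))
  have hfr : ∀ k z, H (X l) k z = ex (fr k * X l z) := by
    rintro (d | a | a) z
    · rfl
    · simp only [H, fr, Sum.elim_inl, Sum.elim_inr]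
      rw [← hXu l hl0 z, ← ex_add]; congr 1; ring
    · simp only [H, fr, Sum.elim_inr]
      rw [← hXu l hl0 z, ← ex_neg, ← ex_add]; congr 1; ring
  have hsec : ∀ d : dif (insert l c.L), ∃ k, fr k = d := by
    intro d
    rcases mem_dif_insert d.2 with h | ⟨a, ha, h⟩ | ⟨a, ha, h⟩
    · exact ⟨Sum.inl ⟨d, h⟩, rfl⟩
    · exact ⟨Sum.inr (Sum.inl ⟨a, ha⟩), h.symm⟩
    · exact ⟨Sum.inr (Sum.inr ⟨a, ha⟩), h.symm⟩
  have hccfr : ∀ k, cc k = if fr k = 0 then 1 else 0 := by
    rintro (d | a | a)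
    · rfl
    · have := h5 a a.2
      have h6 : l - a ≠ 0 := by linarith
      simp [cc, fr, h6]
    · have := h5 a a.2
      have h6 : a - l ≠ 0 := by linarith
      simp [cc, fr, h6]
  choose g hg using hsec
  let c' : Cfg :=
    { ι := c.ι × Fin 4
      fin := inferInstance
      x := X l
      p := P l
      L := insert l c.L
      p_pos := h1
      x_mem := h2
      orth := by
        intro d hd
        have h6 := ho (g ⟨d, hd⟩)
        rw [hccfr, hg] at h6
        simp only [hfr, hg] at h6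
        exact h6
      indep := by
        have hinj : Function.Injective g := by
          intro d d' hdd
          apply Subtype.ext
          rw [← hg d, ← hg d', hdd]
        have h6 := hli.comp g hinj
        convert h6 using 1
        funext d z
        simp [hfr, hg]
      qind := qind_insert c.qind hspan }
  refine ⟨c', l, fun h => ?_, rfl, ⟨Finset.subset_insert _ _, ?_, ?_⟩, ?_⟩
  · have := h5 l h
    linarith
  · intro d hd hd'
    rcases mem_dif_insert hd with h | ⟨a, ha, h⟩ | ⟨a, ha, h⟩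
    · exact (hd' h).elim
    · have := h5 a ha
      rw [h]; exact lt_of_lt_of_le (by linarith) (le_abs_self _)
    · have := h5 a ha
      rw [h, abs_sub_comm]; exact lt_of_lt_of_le (by linarith) (le_abs_self _)
  · intro t ht
    have h6 := h3 t ht
    have h7 : ft X₀ P₀ t = c.F t := hsum1 (fun i => ex (t * c.x i))
    rwa [h7] at h6
  · have h6 : c'.F (ξ - l) = ∑ z, (P l z : ℂ) * (conj (u z.1 z.2) * ex (ξ * X l z)) := by
      change ∑ z, (P l z : ℂ) * ex ((ξ - l) * X l z) = _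
      refine Finset.sum_congr rfl fun z _ => ?_
      rw [← hXu l hl0 z, ← ex_neg, ← ex_add]; congr 2; ring
    rw [h6]; exact h4

end Pool.Agent.H590Z.Fug
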