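import Mathlib

set_option autoImplicit false
set_option linter.unusedSectionVars false

open Filter Topology Finset ComplexConjugate

namespace Pool.Agent.H590Z.Fug

/-- The exponential `e(t) = exp(2 π i t)`. -/
noncomputable def ex (t : ℝ) : ℂ := Complex.exp (2 * (Real.pi : ℂ) * Complex.I * (t : ℂ))

lemma ex_add (s t : ℝ) : ex (s + t) = ex s * ex t := by
  unfold ex; rw [← Complex.exp_add]; congr 1; push_cast; ring

@[simp] lemma ex_zero : ex 0 = 1 := by simp [ex]

lemma ex_eq (t : ℝ) : ex t = Complex.exp (((2 * Real.pi * t : ℝ) : ℂ) * Complex.I) := by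
  unfold ex; congr 1; push_cast; ring

@[simp] lemma norm_ex (t : ℝ) : ‖ex t‖ = 1 := by
  rw [ex_eq]; exact Complex.norm_exp_ofReal_mul_I _

lemma ex_ne_zero (t : ℝ) : ex t ≠ 0 := Complex.exp_ne_zero _

lemma ex_neg (t : ℝ) : ex (-t) = conj (ex t) := by
  unfold ex
  rw [← Complex.exp_conj]
  congr 1
  simp [Complex.conj_ofReal, map_ofNat]

lemma ex_int (n : ℤ) : ex (n : ℝ) = 1 := by
  unfold ex
  have := Complex.exp_int_mul_two_pi_mul_I n
  rw [← this]; congr 1; push_cast; ring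

@[fun_prop] lemma continuous_ex : Continuous ex := by
  unfold ex; fun_prop

lemma ex_nat_mul (n : ℕ) (t : ℝ) : ex (n * t) = ex t ^ n := by
  unfold ex; rw [← Complex.exp_nat_mul]; congr 1; push_cast; ring

lemma ex_inj {s t : ℝ} (h : |s - t| < 1) (he : ex s = ex t) : s = t := by
  unfold ex at he
  obtain ⟨n, hn⟩ := Complex.exp_eq_exp_iff_exists_int.1 he
  have hpi : (2 * (Real.pi : ℂ) * Complex.I) ≠ 0 := by
    simp [Real.pi_ne_zero]
  have h1 : (s : ℂ) = t + n := by
    apply mul_left_cancel₀ hpi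
    rw [hn]; ring
  have h2 : s = t + n := by exact_mod_cast h1
  have h3 : |(n : ℝ)| < 1 := by rwa [h2, add_sub_cancel_left] at h
  have h4 : |n| < 1 := by exact_mod_cast h3
  have h5 : n = 0 := by rwa [Int.abs_lt_one_iff] at h4
  simp [h2, h5]

lemma ex_surj {u : ℂ} (hu : ‖u‖ = 1) : ∃ θ : ℝ, ex θ = u := by
  refine ⟨Complex.arg u / (2 * Real.pi), ?_⟩
  have h := Complex.norm_mul_exp_arg_mul_I u
  rw [hu] at h
  rw [ex_eq, mul_div_cancel₀ _ (by positivity)]
  simpa using h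

lemma norm_ex_sub_one_le (t : ℝ) : ‖ex t - 1‖ ≤ 2 * Real.pi * |t| := by
  rw [ex_eq, mul_comm _ Complex.I]
  refine (Real.norm_exp_I_mul_ofReal_sub_one_le).trans ?_
  rw [Real.norm_eq_abs, abs_mul, abs_of_pos (by positivity : (0:ℝ) < 2 * Real.pi)]

lemma norm_ex_sub_le (s t : ℝ) : ‖ex s - ex t‖ ≤ 2 * Real.pi * |s - t| := by
  have : ex s - ex t = ex t * (ex (s - t) - 1) := by
    rw [mul_sub, ← ex_add]; simp
  rw [this, norm_mul, norm_ex, one_mul]
  exact norm_ex_sub_one_le _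

section Lin

variable {κ ι : Type} [Fintype κ] [Fintype ι]

/-- The map `q ↦ (∑ i, q i * G k i)_k`. -/
noncomputable def Mop (G : κ → ι → ℂ) : (ι → ℂ) →L[ℂ] (κ → ℂ) :=
  LinearMap.toContinuousLinearMap (Matrix.mulVecLin (Matrix.of G))

lemma Mop_apply (G : κ → ι → ℂ) (q : ι → ℂ) (k : κ) : Mop G q k = ∑ i, q i * G k i := by
  simp [Mop, Matrix.mulVec, dotProduct, mul_comm]

lemma Mop_continuous : Continuous (Mop : (κ → ι → ℂ) → ((ι → ℂ) →L[ℂ] (κ → ℂ))) := by
  let M : (κ → ι → ℂ) →ₗ[ℂ] ((ι → ℂ) →L[ℂ] (κ → ℂ)) :=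
    { toFun := Mop
      map_add' := by
        intro G H; ext q k
        simp [Mop_apply, mul_add, Finset.sum_add_distrib]
      map_smul' := by
        intro c G; ext q k
        simp [Mop_apply, Finset.mul_sum, mul_left_comm] }
  exact LinearMap.continuous_of_finiteDimensional M

lemma Mop_range {G : κ → ι → ℂ} (hG : LinearIndependent ℂ G) :
    LinearMap.range (Mop G : (ι → ℂ) →ₗ[ℂ] (κ → ℂ)) = ⊤ := by
  classical
  have h1 : (Matrix.of G).rank = Fintype.card κ := LinearIndependent.rank_matrix hG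
  apply Submodule.eq_top_of_finrank_eq
  have : LinearMap.range (Mop G : (ι → ℂ) →ₗ[ℂ] (κ → ℂ))
      = LinearMap.range (Matrix.mulVecLin (Matrix.of G)) := rfl
  rw [this]
  simpa [Matrix.rank] using h1

lemma re_trick {G : κ → ι → ℂ} {σ : κ → κ} (hσ : ∀ k i, G (σ k) i = conj (G k i))
    {b : κ → ℂ} (hb : ∀ k, b (σ k) = conj (b k)) {q : ι → ℂ}
    (hq : ∀ k, ∑ i, q i * G k i = b k) (k : κ) :
    ∑ i, (((q i).re : ℝ) : ℂ) * G k i = b k := by
  have h1 := hq k
  have h2 : ∑ i, conj (q i) * G k i = b k := by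
    have := congrArg conj (hq (σ k))
    rw [hb, Complex.conj_conj, map_sum] at this
    rw [← this]
    refine Finset.sum_congr rfl fun i _ => ?_
    rw [map_mul, hσ, Complex.conj_conj]
  have h3 : ∀ i, (((q i).re : ℝ) : ℂ) = (q i + conj (q i)) / 2 := by
    intro i; rw [Complex.add_conj]; push_cast; ring
  simp_rw [h3]
  have : ∑ i, (q i + conj (q i)) / 2 * G k i
      = (∑ i, q i * G k i + ∑ i, conj (q i) * G k i) / 2 := by
    rw [← Finset.sum_add_distrib, Finset.sum_div]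
    refine Finset.sum_congr rfl fun i _ => by ring
  rw [this, h1, h2]; ring

lemma surj_real {G : κ → ι → ℂ} (hG : LinearIndependent ℂ G) {σ : κ → κ}
    (hσ : ∀ k i, G (σ k) i = conj (G k i)) {b : κ → ℂ} (hb : ∀ k, b (σ k) = conj (b k)) :
    ∃ q : ι → ℝ, ∀ k, ∑ i, (q i : ℂ) * G k i = b k := by
  have : b ∈ LinearMap.range (Mop G : (ι → ℂ) →ₗ[ℂ] (κ → ℂ)) := by rw [Mop_range hG]; trivial
  obtain ⟨q, hq⟩ := this
  refine ⟨fun i => (q i).re, re_trick hσ hb fun k => ?_⟩
  rw [← Mop_apply]; exact congrFun hq k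

lemma fix {α : Type} {l : Filter α} {G : α → κ → ι → ℂ} {G₀ : κ → ι → ℂ}
    (hG : Tendsto G l (𝓝 G₀)) (hI : LinearIndependent ℂ G₀) {σ : κ → κ}
    (hσ : ∀ a k i, G a (σ k) i = conj (G a k i)) {c : κ → ℂ} (hc : ∀ k, c (σ k) = conj (c k))
    {p₀ : ι → ℝ} (hp : ∀ k, ∑ i, (p₀ i : ℂ) * G₀ k i = c k) :
    ∃ p : α → ι → ℝ, Tendsto p l (𝓝 p₀) ∧
      ∀ᶠ a in l, (∀ k, ∑ i, (p a i : ℂ) * G a k i = c k) ∧ LinearIndependent ℂ (G a) := by
  classical
  obtain ⟨S₀, hS₀⟩ := LinearMap.exists_rightInverse_of_surjective _ (Mop_range hI)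
  let S : (κ → ℂ) →L[ℂ] (ι → ℂ) := LinearMap.toContinuousLinearMap S₀
  have hS : (Mop G₀).comp S = 1 := by
    ext1 b
    exact LinearMap.congr_fun hS₀ b
  have hM : Tendsto (fun a => Mop (G a)) l (𝓝 (Mop G₀)) := (Mop_continuous.tendsto _).comp hG
  have hMS : Tendsto (fun a => (Mop (G a)).comp S) l (𝓝 1) := by
    rw [← hS]
    exact ((continuous_id.clm_comp continuous_const).tendsto (Mop G₀)).comp hM
  have hinv : Tendsto (fun a => Ring.inverse ((Mop (G a)).comp S)) l (𝓝 1) := by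
    have h := NormedRing.inverse_continuousAt (1 : ((κ → ℂ) →L[ℂ] (κ → ℂ))ˣ)
    have h2 := h.tendsto.comp (by simpa using hMS)
    simpa [Function.comp_def] using h2
  have hunit : ∀ᶠ a in l, IsUnit ((Mop (G a)).comp S) :=
    hMS.eventually (Units.isOpen.mem_nhds isUnit_one)
  let pc : ι → ℂ := fun i => (p₀ i : ℂ)
  let b : α → κ → ℂ := fun a => c - Mop (G a) pc
  have hb : Tendsto b l (𝓝 0) := by
    have h0 : c - Mop G₀ pc = 0 := by
      funext k; simp [Mop_apply, pc, hp]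
    rw [← h0]
    exact tendsto_const_nhds.sub
      (((continuous_id.clm_apply continuous_const).tendsto (Mop G₀)).comp hM)
  let q : α → ι → ℂ := fun a => S (Ring.inverse ((Mop (G a)).comp S) (b a))
  have hq : Tendsto q l (𝓝 0) := by
    have h1 : Tendsto (fun a => Ring.inverse ((Mop (G a)).comp S) (b a)) l (𝓝 0) := by
      have hc2 : Continuous fun z : ((κ → ℂ) →L[ℂ] (κ → ℂ)) × (κ → ℂ) => z.1 z.2 :=
        continuous_fst.clm_apply continuous_snd
      have := (hc2.tendsto (1, 0)).comp (hinv.prodMk_nhds hb)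
      simpa [Function.comp_def] using this
    have := (S.continuous.tendsto 0).comp h1
    simpa [Function.comp_def] using this
  refine ⟨fun a i => p₀ i + (q a i).re, ?_, ?_⟩
  · rw [tendsto_pi_nhds]
    intro i
    have h1 : Tendsto (fun a => q a i) l (𝓝 0) := by
      simpa using (tendsto_pi_nhds.1 hq) i
    have h2 := (Complex.continuous_re.tendsto 0).comp h1
    simpa using tendsto_const_nhds.add h2
  · have hli : ∀ᶠ a in l, LinearIndependent ℂ (G a) :=
      hG.eventually (isOpen_setOfPred_linearIndependent.mem_nhds hI)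
    filter_upwards [hunit, hli] with a hu hl
    refine ⟨fun k => ?_, hl⟩
    have h1 : Mop (G a) (q a) = b a := by
      have := Ring.mul_inverse_cancel _ hu
      have h2 := congrArg (fun T : (κ → ℂ) →L[ℂ] (κ → ℂ) => T (b a)) this
      simpa using h2
    have h2 : ∀ k, ∑ i, (pc i + q a i) * G a k i = c k := by
      intro k
      have h3 := congrFun h1 k
      simp only [b, Pi.sub_apply, Mop_apply] at h3
      simp_rw [add_mul, Finset.sum_add_distrib, h3]; ring
    have h3 := re_trick (hσ a) hc h2 k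
    simpa [pc] using h3

end Lin

end Pool.Agent.H590Z.Fug
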