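import Pool.Agent.H590Z.Fug.Basic

set_option autoImplicit false
set_option linter.unusedSectionVars false

open Filter Topology Finset ComplexConjugate

namespace Pool.Agent.H590Z.Fug

/-- Fourier transform of a weighted finite family of points. -/
noncomputable def ft {ι : Type} [Fintype ι] (x p : ι → ℝ) (t : ℝ) : ℂ :=
  ∑ i, (p i : ℂ) * ex (t * x i)

/-- The difference set (with `0`). -/
noncomputable def dif (L : Finset ℝ) : Finset ℝ :=
  insert 0 ((L ×ˢ L).image fun z => z.1 - z.2)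

lemma mem_dif {L : Finset ℝ} {d : ℝ} : d ∈ dif L ↔ d = 0 ∨ ∃ a ∈ L, ∃ b ∈ L, a - b = d := by
  simp only [dif, Finset.mem_insert, Finset.mem_image, Finset.mem_product, Prod.exists]
  constructor
  · rintro (h | ⟨a, b, ⟨ha, hb⟩, h⟩)
    · exact Or.inl h
    · exact Or.inr ⟨a, ha, b, hb, h⟩
  · rintro (h | ⟨a, ha, b, hb, h⟩)
    · exact Or.inl h
    · exact Or.inr ⟨a, b, ⟨ha, hb⟩, h⟩

lemma zero_mem_dif (L : Finset ℝ) : (0 : ℝ) ∈ dif L := mem_dif.2 (Or.inl rfl)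

lemma sub_mem_dif {L : Finset ℝ} {a b : ℝ} (ha : a ∈ L) (hb : b ∈ L) : a - b ∈ dif L :=
  mem_dif.2 (Or.inr ⟨a, ha, b, hb, rfl⟩)

lemma neg_mem_dif {L : Finset ℝ} {d : ℝ} (h : d ∈ dif L) : -d ∈ dif L := by
  rcases mem_dif.1 h with rfl | ⟨a, ha, b, hb, rfl⟩
  · simpa using zero_mem_dif L
  · simpa using sub_mem_dif hb ha

lemma dif_mono {L L' : Finset ℝ} (h : L ⊆ L') : dif L ⊆ dif L' := by
  intro d hd
  rcases mem_dif.1 hd with rfl | ⟨a, ha, b, hb, rfl⟩
  · exact zero_mem_dif _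
  · exact sub_mem_dif (h ha) (h hb)

lemma mem_dif_insert {L : Finset ℝ} {l d : ℝ} (h : d ∈ dif (insert l L)) :
    d ∈ dif L ∨ (∃ a ∈ L, d = l - a) ∨ ∃ a ∈ L, d = a - l := by
  rcases mem_dif.1 h with rfl | ⟨a, ha, b, hb, rfl⟩
  · exact Or.inl (zero_mem_dif _)
  · rcases Finset.mem_insert.1 ha with ha' | ha'
    · rcases Finset.mem_insert.1 hb with hb' | hb'
      · left; rw [ha', hb']; simpa using zero_mem_dif L
      · exact Or.inr (Or.inl ⟨b, hb', by rw [ha']⟩)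
    · rcases Finset.mem_insert.1 hb with hb' | hb'
      · exact Or.inr (Or.inr ⟨a, ha', by rw [hb']⟩)
      · exact Or.inl (sub_mem_dif ha' hb')

/-- No two differences are rationally dependent, except for signs. -/
def QInd (L : Finset ℝ) : Prop :=
  ∀ d ∈ dif L, ∀ d' ∈ dif L, d ≠ 0 → d' ≠ 0 → ∀ n n' : ℤ, n ≠ 0 → n' ≠ 0 →
    (n' : ℝ) * d = n * d' → d' = d ∨ d' = -d

lemma qind_insert {L : Finset ℝ} (h : QInd L) {l : ℝ}
    (hl : l ∉ Submodule.span ℚ (L : Set ℝ)) : QInd (insert l L) := by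
  have hspan : ∀ d ∈ dif L, d ∈ Submodule.span ℚ (L : Set ℝ) := by
    intro d hd
    rcases mem_dif.1 hd with rfl | ⟨a, ha, b, hb, rfl⟩
    · exact Submodule.zero_mem _
    · exact Submodule.sub_mem _ (Submodule.subset_span ha) (Submodule.subset_span hb)
  have hdec : ∀ d ∈ dif (insert l L), (d ∈ dif L) ∨
      ∃ σ : ℤ, (σ = 1 ∨ σ = -1) ∧ d - σ * l ∈ Submodule.span ℚ (L : Set ℝ) := by
    intro d hd
    rcases mem_dif_insert hd with h1 | ⟨a, ha, rfl⟩ | ⟨a, ha, rfl⟩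
    · exact Or.inl h1
    · refine Or.inr ⟨1, Or.inl rfl, ?_⟩
      have : l - a - ((1 : ℤ) : ℝ) * l = -a := by push_cast; ring
      rw [this]; exact Submodule.neg_mem _ (Submodule.subset_span ha)
    · refine Or.inr ⟨-1, Or.inr rfl, ?_⟩
      have : a - l - ((-1 : ℤ) : ℝ) * l = a := by push_cast; ring
      rw [this]; exact Submodule.subset_span ha
  have key : ∀ (d d' : ℝ) (σ σ' n n' : ℤ), d - σ * l ∈ Submodule.span ℚ (L : Set ℝ) →
      d' - σ' * l ∈ Submodule.span ℚ (L : Set ℝ) → (n' : ℝ) * d = n * d' →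
      n' * σ = n * σ' := by
    intro d d' σ σ' n n' h1 h2 h3
    by_contra hne
    apply hl
    have hm : ((n * σ' - n' * σ : ℤ) : ℚ) ≠ 0 := by
      intro h0
      apply hne
      have : n * σ' - n' * σ = 0 := by exact_mod_cast h0
      omega
    have h4 : ((n * σ' - n' * σ : ℤ) : ℚ) • l
        = ((n' : ℤ) : ℚ) • (d - σ * l) - ((n : ℤ) : ℚ) • (d' - σ' * l) := by
      simp only [Rat.smul_def]
      push_cast
      linear_combination (-1 : ℝ) * h3
    have h5 : ((n * σ' - n' * σ : ℤ) : ℚ) • l ∈ Submodule.span ℚ (L : Set ℝ) := by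
      rw [h4]
      exact Submodule.sub_mem _ (Submodule.smul_mem _ _ h1) (Submodule.smul_mem _ _ h2)
    exact (Submodule.smul_mem_iff _ hm).1 h5
  intro d hd d' hd' hd0 hd0' n n' hn hn' hE
  have hnR : (n : ℝ) ≠ 0 := by exact_mod_cast hn
  rcases hdec d hd with h1 | ⟨σ, hσ, h1⟩
  · rcases hdec d' hd' with h2 | ⟨σ', hσ', h2⟩
    · exact h d h1 d' h2 hd0 hd0' n n' hn hn' hE
    · have := key d d' 0 σ' n n' (by simpa using hspan d h1) h2 hE
      rcases hσ' with rfl | rfl <;> omega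
  · rcases hdec d' hd' with h2 | ⟨σ', hσ', h2⟩
    · have := key d d' σ 0 n n' h1 (by simpa using hspan d' h2) hE
      rcases hσ with rfl | rfl <;> omega
    · have := key d d' σ σ' n n' h1 h2 hE
      have h3 : n' = n ∨ n' = -n := by
        rcases hσ with rfl | rfl <;> rcases hσ' with rfl | rfl <;> omega
      rcases h3 with rfl | rfl
      · left; exact (mul_left_cancel₀ hnR hE).symm
      · right
        apply mul_left_cancel₀ hnR
        push_cast at hE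
        linear_combination (-1 : ℝ) * hE

/-- A finite stage of the construction. -/
structure Cfg where
  ι : Type
  fin : Fintype ι
  x : ι → ℝ
  p : ι → ℝ
  L : Finset ℝ
  p_pos : ∀ i, 0 < p i
  x_mem : ∀ i, x i ∈ Set.Ioo (0 : ℝ) 1
  orth : ∀ d ∈ dif L, ft x p d = if d = 0 then 1 else 0
  indep : LinearIndependent ℂ (fun (d : dif L) (i : ι) => ex (d * x i))
  qind : QInd L

attribute [instance] Cfg.fin

/-- The Fourier transform of a stage. -/
noncomputable def Cfg.F (c : Cfg) (t : ℝ) : ℂ := ft c.x c.p t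

lemma Cfg.sum_p (c : Cfg) : ∑ i, c.p i = 1 := by
  have := c.orth 0 (zero_mem_dif _)
  simp only [ft, zero_mul, ex_zero, mul_one, if_true] at this
  exact_mod_cast this

lemma Cfg.nonempty (c : Cfg) : Nonempty c.ι := by
  by_contra h
  rw [not_nonempty_iff] at h
  have := c.sum_p
  simp at this

/-- `c'` extends `c` with radius `R` and error `η`. -/
structure Ext (c c' : Cfg) (R η : ℝ) : Prop where
  sub : c.L ⊆ c'.L
  far : ∀ d ∈ dif c'.L, d ∉ dif c.L → R < |d|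
  close : ∀ t, |t| ≤ R → ‖c'.F t - c.F t‖ ≤ η

lemma Ext.refl (c : Cfg) (R : ℝ) {η : ℝ} (h : 0 ≤ η) : Ext c c R η :=
  ⟨Finset.Subset.refl _, fun _ h1 h2 => (h2 h1).elim, fun _ _ => by simpa using h⟩

lemma Ext.mono {c c' : Cfg} {R η R' η' : ℝ} (h : Ext c c' R η) (hR : R' ≤ R) (hη : η ≤ η') :
    Ext c c' R' η' :=
  ⟨h.sub, fun d h1 h2 => hR.trans_lt (h.far d h1 h2),
    fun t ht => (h.close t (ht.trans hR)).trans hη⟩

lemma Ext.trans {c c' c'' : Cfg} {R η η' : ℝ} (h : Ext c c' R η) (h' : Ext c' c'' R η') :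
    Ext c c'' R (η + η') := by
  refine ⟨h.sub.trans h'.sub, fun d h1 h2 => ?_, fun t ht => ?_⟩
  · by_cases h3 : d ∈ dif c'.L
    · exact h.far d h3 h2
    · exact h'.far d h1 h3
  · have := norm_sub_le_norm_sub_add_norm_sub (c''.F t) (c'.F t) (c.F t)
    linarith [h.close t ht, h'.close t ht]

lemma ft_close {α ι : Type} [Fintype ι] {l : Filter α} {x p : α → ι → ℝ} {x₀ p₀ : ι → ℝ}
    (hx : Tendsto x l (𝓝 x₀)) (hp : Tendsto p l (𝓝 p₀)) (R : ℝ) {η : ℝ} (hη : 0 < η) :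
    ∀ᶠ a in l, ∀ t, |t| ≤ R → ‖ft (x a) (p a) t - ft x₀ p₀ t‖ ≤ η := by
  let B : (ι → ℝ) × (ι → ℝ) → ℝ := fun z =>
    ∑ i, (|z.2 i - p₀ i| + |p₀ i| * (2 * Real.pi * (|R| * |z.1 i - x₀ i|)))
  have hB : Continuous B := by fun_prop
  have hB0 : B (x₀, p₀) = 0 := by simp [B]
  have h1 : Tendsto (fun a => B (x a, p a)) l (𝓝 0) := by
    rw [← hB0]; exact (hB.tendsto _).comp (hx.prodMk_nhds hp)
  filter_upwards [h1.eventually (gt_mem_nhds hη)] with a ha t ht
  refine le_trans ?_ ha.le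
  simp only [ft, B]
  rw [← Finset.sum_sub_distrib]
  refine (norm_sum_le _ _).trans (Finset.sum_le_sum fun i _ => ?_)
  have h2 : (p a i : ℂ) * ex (t * x a i) - (p₀ i : ℂ) * ex (t * x₀ i)
      = ((p a i - p₀ i : ℝ) : ℂ) * ex (t * x a i)
        + (p₀ i : ℂ) * (ex (t * x a i) - ex (t * x₀ i)) := by push_cast; ring
  rw [h2]
  refine (norm_add_le _ _).trans (add_le_add ?_ ?_)
  · rw [norm_mul, norm_ex, mul_one, Complex.norm_real, Real.norm_eq_abs]
  · rw [norm_mul, Complex.norm_real, Real.norm_eq_abs]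
    refine mul_le_mul_of_nonneg_left ((norm_ex_sub_le _ _).trans ?_) (abs_nonneg _)
    refine mul_le_mul_of_nonneg_left ?_ (by positivity)
    rw [← mul_sub, abs_mul]
    exact mul_le_mul_of_nonneg_right (ht.trans (le_abs_self R)) (abs_nonneg _)

lemma pos_eventually {α ι : Type} [Fintype ι] {l : Filter α} {p : α → ι → ℝ} {p₀ : ι → ℝ}
    (hp : Tendsto p l (𝓝 p₀)) (h : ∀ i, 0 < p₀ i) : ∀ᶠ a in l, ∀ i, 0 < p a i := by
  rw [Filter.eventually_all]
  intro i
  exact ((tendsto_pi_nhds.1 hp) i).eventually (lt_mem_nhds (h i))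

lemma ioo_eventually {α ι : Type} [Fintype ι] {l : Filter α} {x : α → ι → ℝ} {x₀ : ι → ℝ}
    (hx : Tendsto x l (𝓝 x₀)) (h : ∀ i, x₀ i ∈ Set.Ioo (0 : ℝ) 1) :
    ∀ᶠ a in l, ∀ i, x a i ∈ Set.Ioo (0 : ℝ) 1 := by
  rw [Filter.eventually_all]
  intro i
  exact ((tendsto_pi_nhds.1 hx) i).eventually (isOpen_Ioo.mem_nhds (h i))

end Pool.Agent.H590Z.Fug
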