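import Pool.Agent.H590Z.Fug.Limit

set_option autoImplicit false
set_option linter.unusedSectionVars false

open Filter Topology Finset ComplexConjugate MeasureTheory

namespace Pool.Agent.H590Z.Fug

lemma FT_neg (μ : Measure ℝ) (t : ℝ) : FT μ (-t) = conj (FT μ t) := by
  unfold FT
  rw [← integral_conj]
  simp only [neg_mul, ex_neg]

lemma FT_zero (μ : Measure ℝ) [IsProbabilityMeasure μ] : FT μ 0 = 1 := by
  simp [FT]

lemma integrable_mul_ex {μ : Measure ℝ} {f : ℝ → ℂ} (hf : Integrable f μ) (t : ℝ) :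
    Integrable (fun x => f x * ex (t * x)) μ :=
  hf.mul_bdd (c := 1) (by fun_prop) (Eventually.of_forall fun x => by simp)

lemma real_unique {μ : Measure ℝ} [IsFiniteMeasure μ] {g : ℝ → ℝ} (hg : Integrable g μ)
    (h : ∀ t, ∫ x, (g x : ℂ) * ex (t * x) ∂μ = 0) : g =ᵐ[μ] 0 := by
  have h1 := isFiniteMeasure_withDensity_ofReal hg.2
  have h2 := isFiniteMeasure_withDensity_ofReal hg.neg.2
  have hm1 : AEMeasurable (fun x => ENNReal.ofReal (g x)) μ :=
    hg.1.aemeasurable.ennreal_ofReal
  have hm2 : AEMeasurable (fun x => ENNReal.ofReal ((-g) x)) μ :=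
    hg.neg.1.aemeasurable.ennreal_ofReal
  have key : μ.withDensity (fun x => ENNReal.ofReal (g x))
      = μ.withDensity (fun x => ENNReal.ofReal ((-g) x)) := by
    apply Measure.ext_of_charFun
    funext t
    rw [charFun_apply_real, charFun_apply_real,
      integral_withDensity_eq_integral_toReal_smul₀ hm1 (by simp),
      integral_withDensity_eq_integral_toReal_smul₀ hm2 (by simp)]
    have he : ∀ x : ℝ, Complex.exp (t * x * Complex.I) = ex (t / (2 * Real.pi) * x) := by
      intro x
      rw [ex_eq]; congr 2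
      have : (Real.pi : ℂ) ≠ 0 := by exact_mod_cast Real.pi_ne_zero
      push_cast; field_simp
    simp only [he, ENNReal.toReal_ofReal', Complex.real_smul]
    rw [← sub_eq_zero, ← integral_sub, ← h (t / (2 * Real.pi))]
    · refine integral_congr_ae (Eventually.of_forall fun x => ?_)
      simp only [Pi.neg_apply]
      rw [← sub_mul, ← Complex.ofReal_sub, max_zero_sub_max_neg_zero_eq_self]
    · exact integrable_mul_ex (hg.pos_part.ofReal) _
    · exact integrable_mul_ex (hg.neg.pos_part.ofReal) _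
  rw [withDensity_eq_iff_of_sigmaFinite hm1 hm2] at key
  filter_upwards [key] with x hx
  simp only [Pi.neg_apply, Pi.zero_apply] at hx ⊢
  rcases lt_trichotomy (g x) 0 with h0 | h0 | h0
  · rw [ENNReal.ofReal_of_nonpos h0.le, eq_comm, ENNReal.ofReal_eq_zero] at hx; linarith
  · exact h0
  · rw [ENNReal.ofReal_of_nonpos (show -g x ≤ 0 by linarith), ENNReal.ofReal_eq_zero] at hx
    linarith

lemma complex_unique {μ : Measure ℝ} [IsFiniteMeasure μ] {f : ℝ → ℂ} (hf : Integrable f μ)
    (h : ∀ t, ∫ x, f x * ex (t * x) ∂μ = 0) : f =ᵐ[μ] 0 := by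
  have hre : ∀ f : ℝ → ℂ, Integrable f μ → (∀ t, ∫ x, f x * ex (t * x) ∂μ = 0) →
      (fun x => (f x).re) =ᵐ[μ] 0 := by
    intro f hf h
    apply real_unique hf.re
    intro t
    have h1 : ∫ x, conj (f x) * ex (t * x) ∂μ = 0 := by
      have := congrArg conj (h (-t))
      rw [← integral_conj, map_zero] at this
      rw [← this]
      simp only [neg_mul, ex_neg, map_mul, Complex.conj_conj]
    have h2 : ∀ x, (((f x).re : ℝ) : ℂ) * ex (t * x)
        = (1 / 2 : ℂ) * (f x * ex (t * x) + conj (f x) * ex (t * x)) := by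
      intro x
      have h3 : (((f x).re : ℝ) : ℂ) = (f x + conj (f x)) / 2 := by
        rw [Complex.add_conj]; push_cast; ring
      rw [h3]; ring
    change ∫ x, (((f x).re : ℝ) : ℂ) * ex (t * x) ∂μ = 0
    simp only [h2]
    rw [integral_const_mul, integral_add (integrable_mul_ex hf t), h, h1]
    · simp
    · exact integrable_mul_ex (Complex.conjCLE.toContinuousLinearMap.integrable_comp hf) t
  have h1 := hre f hf h
  have h2 := hre (fun x => Complex.I * f x) (hf.const_mul _) (by
    intro t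
    simp only [mul_assoc]
    rw [integral_const_mul, h, mul_zero])
  filter_upwards [h1, h2] with x hx1 hx2
  apply Complex.ext
  · simpa using hx1
  · simpa using hx2

lemma complete_of {μ : Measure ℝ} [IsProbabilityMeasure μ] {Λ : Set ℝ}
    (horth : ∀ a ∈ Λ, ∀ b ∈ Λ, FT μ (a - b) = if a = b then 1 else 0)
    (happ : ∀ ξ : ℚ, ∀ δ : ℝ, 0 < δ → ∃ L : Finset ℝ, (L : Set ℝ) ⊆ Λ ∧ En L (FT μ) ξ < δ)
    {f : ℝ → ℂ} (hf : MemLp f 2 μ) (h : ∀ a ∈ Λ, ∫ x, f x * ex (-a * x) ∂μ = 0) :
    f =ᵐ[μ] 0 := by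
  have hfi : Integrable f μ := hf.integrable one_le_two
  have hf2 : Integrable (fun x => ‖f x‖ ^ 2) μ := (memLp_two_iff_integrable_sq_norm hf.1).1 hf
  set C := ∫ x, ‖f x‖ ^ 2 ∂μ with hC
  have hC0 : 0 ≤ C := integral_nonneg fun x => by positivity
  have hrat : ∀ ξ : ℚ, ∫ x, f x * ex (-ξ * x) ∂μ = 0 := by
    intro ξ
    rw [← norm_le_zero_iff]
    refine le_of_forall_pos_le_add fun η hη => ?_
    obtain ⟨s, hs, hs2⟩ : ∃ s : ℝ, 0 < s ∧ s * (C + 1) ≤ η :=
      ⟨η / (C + 1), by positivity, by rw [div_mul_cancel₀ _ (by positivity)]⟩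
    obtain ⟨L, hL, hE⟩ := happ ξ (s ^ 2) (by positivity)
    let rc : ℝ → ℂ := fun x => ex (-ξ * x) - ∑ a ∈ L, conj (FT μ (ξ - a)) * ex (-a * x)
    have hrc : Continuous rc := by fun_prop
    have hint : ∀ g : ℝ → ℂ, Integrable g μ → ∫ x, g x * rc x ∂μ
        = ∫ x, g x * ex (-ξ * x) ∂μ
          - ∑ a ∈ L, conj (FT μ (ξ - a)) * ∫ x, g x * ex (-a * x) ∂μ := by
      intro g hg
      have h1 : ∀ x, g x * rc x = g x * ex (-ξ * x)
          - ∑ a ∈ L, conj (FT μ (ξ - a)) * (g x * ex (-a * x)) := by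
        intro x
        simp only [rc, mul_sub, Finset.mul_sum]
        congr 1
        refine Finset.sum_congr rfl fun a _ => by ring
      simp only [h1]
      rw [integral_sub (integrable_mul_ex hg _), integral_finsetSum]
      · simp only [integral_const_mul]
      · exact fun a _ => (integrable_mul_ex hg _).const_mul _
      · exact integrable_finsetSum _ fun a _ => (integrable_mul_ex hg _).const_mul _
    have hex : ∀ u : ℝ, ∫ x, ex (u * x) * rc x ∂μ
        = FT μ (u - ξ) - ∑ a ∈ L, conj (FT μ (ξ - a)) * FT μ (u - a) := by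
      intro u
      rw [hint _ (integrable_ex μ u)]
      have h1 : ∀ v : ℝ, ∫ x, ex (u * x) * ex (-v * x) ∂μ = FT μ (u - v) := by
        intro v
        simp only [FT, ← ex_add]
        congr 1; funext x; congr 1; ring
      simp only [h1]
    have hbd : ∀ x, ‖rc x‖ ≤ 1 + ∑ a ∈ L, ‖FT μ (ξ - a)‖ := by
      intro x
      refine (norm_sub_le _ _).trans (add_le_add (by simp) ?_)
      exact (norm_sum_le _ _).trans (le_of_eq (Finset.sum_congr rfl fun a _ => by simp))
    have hrci : Integrable rc μ :=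
      Integrable.of_bound hrc.aestronglyMeasurable _ (Eventually.of_forall hbd)
    have hrc2 : Integrable (fun x => ‖rc x‖ ^ 2) μ :=
      Integrable.of_bound (by fun_prop) ((1 + ∑ a ∈ L, ‖FT μ (ξ - a)‖) ^ 2)
        (Eventually.of_forall fun x => by
          rw [Real.norm_eq_abs, abs_of_nonneg (by positivity)]
          exact pow_le_pow_left₀ (norm_nonneg _) (hbd x) 2)
    have hnorm : ∫ x, ‖rc x‖ ^ 2 ∂μ = En L (FT μ) ξ := by
      apply Complex.ofReal_injective
      rw [← integral_complex_ofReal]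
      have h1 : ∀ x, ((‖rc x‖ ^ 2 : ℝ) : ℂ) = ex (ξ * x) * rc x
          - ∑ a ∈ L, FT μ (ξ - a) * (ex (a * x) * rc x) := by
        intro x
        have h2 : conj (rc x) = ex (ξ * x) - ∑ a ∈ L, FT μ (ξ - a) * ex (a * x) := by
          simp only [rc, map_sub, map_sum, map_mul, neg_mul, ex_neg, Complex.conj_conj]
        rw [← Complex.normSq_eq_norm_sq, Complex.normSq_eq_conj_mul_self, h2, sub_mul,
          Finset.sum_mul]
        simp only [mul_assoc]
      have h3 : ∀ u : ℝ, Integrable (fun x => ex (u * x) * rc x) μ := fun u => by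
        simpa only [mul_comm] using integrable_mul_ex hrci u
      simp only [h1]
      rw [integral_sub (h3 _), integral_finsetSum]
      · simp only [integral_const_mul, hex]
        have h4 : ∀ b ∈ L, FT μ (ξ - b) *
            (FT μ (b - ξ) - ∑ a ∈ L, conj (FT μ (ξ - a)) * FT μ (b - a)) = 0 := by
          intro b hb
          rw [Finset.sum_eq_single b, horth b (hL hb) b (hL hb), ← neg_sub (ξ : ℝ) b, FT_neg]
          · simp
          · intro a ha hab
            rw [horth b (hL hb) a (hL ha)]; simp [hab.symm]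
          · intro h; exact (h hb).elim
        rw [Finset.sum_eq_zero h4, sub_zero, sub_self, FT_zero, En]
        push_cast
        congr 1
        refine Finset.sum_congr rfl fun a _ => ?_
        rw [← Complex.normSq_eq_conj_mul_self, Complex.normSq_eq_norm_sq]
        push_cast; rfl
      · exact fun a _ => (h3 _).const_mul _
      · exact integrable_finsetSum _ fun a _ => (h3 _).const_mul _
    have h5 : ∫ x, f x * ex (-ξ * x) ∂μ = ∫ x, f x * rc x ∂μ := by
      rw [hint f hfi, Finset.sum_eq_zero, sub_zero]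
      intro a ha
      rw [h a (hL ha), mul_zero]
    rw [h5, zero_add]
    have h6 : ‖∫ x, f x * rc x ∂μ‖ ≤ ∫ x, (s * ‖f x‖ ^ 2 + s⁻¹ * ‖rc x‖ ^ 2) ∂μ := by
      refine norm_integral_le_of_norm_le ((hf2.const_mul _).add (hrc2.const_mul _))
        (Eventually.of_forall fun x => ?_)
      rw [norm_mul]
      have h7 : s * ‖f x‖ ^ 2 + s⁻¹ * ‖rc x‖ ^ 2 - 2 * (‖f x‖ * ‖rc x‖)
          = s⁻¹ * (s * ‖f x‖ - ‖rc x‖) ^ 2 := by field_simp; ring
      have h8 : 0 ≤ s⁻¹ * (s * ‖f x‖ - ‖rc x‖) ^ 2 := by positivity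
      have h9 : 0 ≤ ‖f x‖ * ‖rc x‖ := by positivity
      linarith
    rw [integral_add (hf2.const_mul _) (hrc2.const_mul _), integral_const_mul,
      integral_const_mul, hnorm, ← hC] at h6
    have h10 : s⁻¹ * En L (FT μ) ξ ≤ s := by
      rw [inv_mul_le_iff₀ hs]; nlinarith
    nlinarith
  have hcont : Continuous fun t : ℝ => ∫ x, f x * ex (t * x) ∂μ := by
    refine continuous_of_dominated (bound := fun x => ‖f x‖)
      (fun t => (integrable_mul_ex hfi t).1) (fun t => Eventually.of_forall fun x => by simp)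
      hfi.norm (Eventually.of_forall fun x => by fun_prop)
  apply complex_unique hfi
  intro t
  refine Rat.denseRange_cast.induction_on t (isClosed_eq hcont continuous_const) fun ξ => ?_
  simpa using hrat (-ξ)

end Pool.Agent.H590Z.Fug
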