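import Pool.Agent.H590Z.Fug.Zero

set_option autoImplicit false
set_option linter.unusedSectionVars false

open Filter Topology Finset ComplexConjugate

namespace Pool.Agent.H590Z.Fug

/-- Squared distance of `e_ξ` from the span of the `e_a`. -/
noncomputable def En (L : Finset ℝ) (F : ℝ → ℂ) (ξ : ℝ) : ℝ := 1 - ∑ a ∈ L, ‖F (ξ - a)‖ ^ 2

/-- A bound for the sup norm of the residual. -/
noncomputable def Tn (L : Finset ℝ) (F : ℝ → ℂ) (ξ : ℝ) : ℝ := 2 + ∑ a ∈ L, ‖F (ξ - a)‖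

lemma two_le_Tn (L : Finset ℝ) (F : ℝ → ℂ) (ξ : ℝ) : 2 ≤ Tn L F ξ :=
  le_add_of_nonneg_right (Finset.sum_nonneg fun _ _ => norm_nonneg _)

lemma exists_radius (L : Finset ℝ) (ξ R : ℝ) : ∃ R', R ≤ R' ∧ ∀ a ∈ L, |ξ - a| ≤ R' := by
  obtain ⟨B, hB⟩ := (L.image fun a => |ξ - a|).bddAbove
  exact ⟨max R B, le_max_left _ _, fun a ha =>
    (hB (Finset.mem_coe.2 (Finset.mem_image_of_mem _ ha))).trans (le_max_right _ _)⟩

lemma step_one (c : Cfg) (ξ R : ℝ) {η : ℝ} (hη : 0 < η) (hE : 0 < En c.L c.F ξ) :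
    ∃ c' : Cfg, Ext c c' R η ∧ En c'.L c'.F ξ * Tn c'.L c'.F ξ ≤
      En c.L c.F ξ * Tn c.L c.F ξ - En c.L c.F ξ ^ 3 / (2 * Tn c.L c.F ξ ^ 3) := by
  classical
  set E := En c.L c.F ξ with hEd
  set T := Tn c.L c.F ξ with hTd
  have hT2 : 2 ≤ T := two_le_Tn _ _ _
  have hT0 : 0 < T := by linarith
  have hTC : (T : ℂ) ≠ 0 := by exact_mod_cast hT0.ne'
  let r : c.ι → ℂ := fun i => ex (ξ * c.x i) - ∑ a ∈ c.L, c.F (ξ - a) * ex (a * c.x i)
  have hr : ∀ i, ‖r i‖ < T := by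
    intro i
    refine (norm_sub_le _ _).trans_lt ?_
    have h1 : ‖∑ a ∈ c.L, c.F (ξ - a) * ex (a * c.x i)‖ ≤ ∑ a ∈ c.L, ‖c.F (ξ - a)‖ :=
      (norm_sum_le _ _).trans (le_of_eq (Finset.sum_congr rfl fun a _ => by simp))
    rw [norm_ex, hTd, Tn]; linarith
  have hinner : ∀ s : ℝ, ∑ i, (c.p i : ℂ) * (r i * ex (-(s * c.x i)))
      = c.F (ξ - s) - ∑ a ∈ c.L, c.F (ξ - a) * c.F (a - s) := by
    intro s
    have h1 : ∀ a : ℝ, c.F (a - s) = ∑ i, (c.p i : ℂ) * (ex (a * c.x i) * ex (-(s * c.x i))) := by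
      intro a
      refine Finset.sum_congr rfl fun i _ => ?_
      rw [← ex_add]; congr 2; ring
    simp only [r, sub_mul, mul_sub, Finset.sum_sub_distrib]
    rw [h1 ξ]
    congr 1
    simp_rw [h1, Finset.sum_mul, Finset.mul_sum]
    rw [Finset.sum_comm]
    refine Finset.sum_congr rfl fun a _ => Finset.sum_congr rfl fun i _ => by ring
  have hconj : ∀ t, c.F (-t) = conj (c.F t) := by
    intro t
    simp only [Cfg.F, ft, map_sum, map_mul, Complex.conj_ofReal, ← ex_neg, neg_mul]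
  have hF0 : c.F 0 = 1 := by simpa [Cfg.F] using c.orth 0 (zero_mem_dif _)
  have hval : ∑ i, (c.p i : ℂ) * (r i * ex (-(ξ * c.x i))) = (E : ℂ) := by
    rw [hinner, sub_self, hF0, hEd, En]
    push_cast
    congr 1
    refine Finset.sum_congr rfl fun a _ => ?_
    rw [← neg_sub ξ a, hconj, Complex.mul_conj, Complex.normSq_eq_norm_sq]
    push_cast; rfl
  let Φ : (c.L → ℂ) × ℂ → ℝ := fun y =>
    (1 - (‖y.2‖ ^ 2 + ∑ a, ‖y.1 a‖ ^ 2)) * (2 + (‖y.2‖ + ∑ a, ‖y.1 a‖))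
  have hΦ : Continuous Φ := by fun_prop
  let y₀ : (c.L → ℂ) × ℂ := (fun a => c.F (ξ - a), ((E / T : ℝ) : ℂ))
  have hy₀ : Φ y₀ < E * T - E ^ 3 / (2 * T ^ 3) := by
    have h1 : ∑ a : c.L, ‖c.F (ξ - a)‖ ^ 2 = 1 - E := by
      rw [hEd, En, Finset.sum_coe_sort c.L (fun a => ‖c.F (ξ - a)‖ ^ 2)]; ring
    have h2 : ∑ a : c.L, ‖c.F (ξ - a)‖ = T - 2 := by
      rw [hTd, Tn, Finset.sum_coe_sort c.L (fun a => ‖c.F (ξ - a)‖)]; ring
    have h3 : ‖((E / T : ℝ) : ℂ)‖ = E / T := by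
      rw [Complex.norm_real, Real.norm_eq_abs, abs_of_pos (div_pos hE hT0)]
    simp only [Φ, y₀, h1, h2, h3]
    have h4 : (1 - ((E / T) ^ 2 + (1 - E))) * (2 + (E / T + (T - 2)))
        = E * T - E ^ 3 / T ^ 3 := by field_simp; ring
    rw [h4]
    have h5 : E ^ 3 / (2 * T ^ 3) < E ^ 3 / T ^ 3 :=
      div_lt_div_of_pos_left (by positivity) (by positivity) (by linarith [pow_pos hT0 3])
    linarith
  obtain ⟨δ, hδ, hball⟩ := Metric.eventually_nhds_iff.1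
    ((hΦ.tendsto y₀).eventually (gt_mem_nhds hy₀))
  obtain ⟨R', hR', hR'2⟩ := exists_radius c.L ξ R
  obtain ⟨c', l, hl, hL, hext, hc'⟩ := step_add c (fun i => r i / T)
    (by
      intro i
      rw [norm_div, Complex.norm_real, Real.norm_eq_abs, abs_of_pos hT0, div_lt_one hT0]
      exact hr i)
    (by
      intro b hb
      have h1 : ∑ i, (c.p i : ℂ) * (r i * ex (-(b * c.x i))) = 0 := by
        rw [hinner, Finset.sum_eq_single b, c.orthL hb hb]
        · simp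
        · intro a ha hab
          rw [c.orthL ha hb]; simp [hab]
        · intro h; exact (h hb).elim
      have h2 : ∑ i, (c.p i : ℂ) * (r i / T * ex (-(b * c.x i)))
          = (∑ i, (c.p i : ℂ) * (r i * ex (-(b * c.x i)))) / T := by
        rw [Finset.sum_div]
        refine Finset.sum_congr rfl fun i _ => by ring
      rw [h2, h1, zero_div])
    R' ξ (lt_min hη (half_pos hδ))
  have h3 : ∑ i, (c.p i : ℂ) * (ex (ξ * c.x i) * conj (r i / T)) = ((E / T : ℝ) : ℂ) := by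
    have h4 := congrArg conj hval
    rw [map_sum, Complex.conj_ofReal] at h4
    push_cast
    rw [← h4, Finset.sum_div]
    refine Finset.sum_congr rfl fun i _ => ?_
    simp only [map_mul, map_div₀, Complex.conj_ofReal, ex_neg, Complex.conj_conj]
    ring
  rw [h3] at hc'
  refine ⟨c', hext.mono hR' (min_le_left _ _), ?_⟩
  have h5 : Φ (fun a => c'.F (ξ - a), c'.F (ξ - l)) < E * T - E ^ 3 / (2 * T ^ 3) := by
    apply hball
    rw [Prod.dist_eq, max_lt_iff]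
    have h6 : min η (δ / 2) < δ := (min_le_right _ _).trans_lt (half_lt_self hδ)
    constructor
    · rw [dist_pi_lt_iff hδ]
      intro a
      rw [dist_eq_norm]
      exact (hext.close _ (hR'2 a a.2)).trans_lt h6
    · rw [dist_eq_norm]
      exact hc'.trans_lt h6
  refine le_of_eq_of_le ?_ h5.le
  simp only [Φ, En, Tn, hL, Finset.sum_insert hl]
  rw [Finset.sum_coe_sort c.L (fun a => ‖c'.F (ξ - a)‖ ^ 2),
    Finset.sum_coe_sort c.L (fun a => ‖c'.F (ξ - a)‖)]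

lemma step_complete (c : Cfg) (ξ R : ℝ) {η δ : ℝ} (hη : 0 < η) (hδ : 0 < δ) :
    ∃ c' : Cfg, Ext c c' R η ∧ En c'.L c'.F ξ < δ := by
  by_cases h0 : En c.L c.F ξ < δ
  · exact ⟨c, Ext.refl c R hη.le, h0⟩
  push Not at h0
  set Φ₀ := En c.L c.F ξ * Tn c.L c.F ξ with hΦ₀
  have hΦpos : 0 < Φ₀ := mul_pos (hδ.trans_le h0) (by linarith [two_le_Tn c.L c.F ξ])
  set κ := δ ^ 3 / (2 * (Φ₀ / δ) ^ 3) with hκ
  have hκ0 : 0 < κ := by positivity
  have key : ∀ n : ℕ, ∀ η : ℝ, 0 < η → ∃ c' : Cfg, Ext c c' R η ∧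
      (En c'.L c'.F ξ < δ ∨ En c'.L c'.F ξ * Tn c'.L c'.F ξ ≤ Φ₀ - n * κ) := by
    intro n
    induction n with
    | zero => intro η hη; exact ⟨c, Ext.refl c R hη.le, Or.inr (by simp [hΦ₀])⟩
    | succ n ih =>
      intro η hη
      obtain ⟨c₁, hE, h1⟩ := ih (η / 2) (half_pos hη)
      by_cases h2 : En c₁.L c₁.F ξ < δ
      · exact ⟨c₁, hE.mono le_rfl (by linarith), Or.inl h2⟩
      have h3 := h1.resolve_left h2
      push Not at h2
      obtain ⟨c₂, hE2, h4⟩ := step_one c₁ ξ R (half_pos hη) (hδ.trans_le h2)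
      refine ⟨c₂, (hE.trans hE2).mono le_rfl (by linarith), Or.inr ?_⟩
      have hT := two_le_Tn c₁.L c₁.F ξ
      have hnκ : 0 ≤ (n : ℝ) * κ := by positivity
      have h5 : Tn c₁.L c₁.F ξ ≤ Φ₀ / δ := by
        rw [le_div_iff₀ hδ]
        nlinarith
      have h6 : κ ≤ En c₁.L c₁.F ξ ^ 3 / (2 * Tn c₁.L c₁.F ξ ^ 3) := by
        rw [hκ]
        have := hδ.trans_le h2
        gcongr
      push_cast
      linarith
  obtain ⟨n, hn⟩ := exists_nat_gt (Φ₀ / κ)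
  obtain ⟨c', hE, h1⟩ := key n η hη
  refine ⟨c', hE, ?_⟩
  by_contra h2
  have h3 := h1.resolve_left h2
  push Not at h2
  rw [div_lt_iff₀ hκ0] at hn
  have := mul_pos (hδ.trans_le h2) (show 0 < Tn c'.L c'.F ξ by linarith [two_le_Tn c'.L c'.F ξ])
  linarith

/-- `F'` is close to `F`. -/
def Close (F' F : ℝ → ℂ) (R η : ℝ) : Prop := ∀ t, |t| ≤ R → ‖F' t - F t‖ ≤ η

/-- A requirement which can be met robustly by an extension of any stage. -/
def Req (P : Finset ℝ → (ℝ → ℂ) → Prop) : Prop :=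
  ∀ (c : Cfg) (R η : ℝ), 0 < η → ∃ c' : Cfg, Ext c c' R η ∧
    ∃ R' η' : ℝ, 0 < η' ∧ ∀ F', Close F' c'.F R' η' → P c'.L F'

lemma req_complete (ξ : ℝ) {δ : ℝ} (hδ : 0 < δ) : Req fun L F' => En L F' ξ < δ := by
  intro c R η hη
  obtain ⟨c', hE, h1⟩ := step_complete c ξ R hη hδ
  let Φ : (c'.L → ℂ) → ℝ := fun y => 1 - ∑ a, ‖y a‖ ^ 2
  have hΦ : Continuous Φ := by fun_prop
  have hΦE : ∀ F : ℝ → ℂ, Φ (fun a => F (ξ - a)) = En c'.L F ξ := by
    intro F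
    simp only [Φ, En]
    rw [Finset.sum_coe_sort c'.L (fun a => ‖F (ξ - a)‖ ^ 2)]
  rw [← hΦE] at h1
  obtain ⟨ε, hε, hball⟩ := Metric.eventually_nhds_iff.1
    ((hΦ.tendsto _).eventually (gt_mem_nhds h1))
  obtain ⟨R', -, hR'⟩ := exists_radius c'.L ξ 0
  refine ⟨c', hE, R', ε / 2, half_pos hε, fun F' hF' => ?_⟩
  change En c'.L F' ξ < δ
  rw [← hΦE]
  apply hball
  rw [dist_pi_lt_iff hε]
  intro a
  rw [dist_eq_norm]
  exact (hF' _ (hR' a a.2)).trans_lt (half_lt_self hε)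

lemma req_nozero (m : ℕ) : Req fun L F' => ∀ t : ℝ, |t| ≤ m →
    (∀ d ∈ dif L, d ≠ 0 → 1 / ((m : ℝ) + 1) ≤ |t - d|) → F' t ≠ 0 := by
  intro c R η hη
  obtain ⟨c', hL, hE, hz⟩ := step_nozero c (max R m) hη
  let K : Set ℝ := {t | |t| ≤ m ∧ ∀ d ∈ dif c'.L, d ≠ 0 → 1 / ((m : ℝ) + 1) ≤ |t - d|}
  have hK : IsCompact K := by
    refine (isCompact_Icc (a := -(m : ℝ)) (b := m)).of_isClosed_subset ?_
      fun t ht => abs_le.1 ht.1
    have : K = {t : ℝ | |t| ≤ m} ∩ ⋂ d ∈ dif c'.L, ⋂ (_ : d ≠ 0),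
        {t : ℝ | 1 / ((m : ℝ) + 1) ≤ |t - d|} := by
      ext t; simp [K]
    rw [this]
    refine (isClosed_le (by fun_prop) (by fun_prop)).inter ?_
    exact isClosed_biInter fun d _ => isClosed_iInter fun _ =>
      isClosed_le (by fun_prop) (by fun_prop)
  have hne : ∀ t ∈ K, c'.F t ≠ 0 := by
    intro t ht
    by_cases h1 : t ∈ dif c.L
    · by_cases h2 : t = 0
      · have : c'.F 0 = 1 := by simpa [Cfg.F] using c'.orth 0 (zero_mem_dif _)
        rw [h2, this]; exact one_ne_zero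
      · have := ht.2 t (hL ▸ h1) h2
        rw [sub_self, abs_zero] at this
        have h3 : (0 : ℝ) < 1 / ((m : ℝ) + 1) := by positivity
        linarith
    · exact hz t (ht.1.trans (le_max_right _ _)) h1
  have hcont : Continuous fun t => ‖c'.F t‖ := by
    unfold Cfg.F ft; fun_prop
  obtain ⟨ε, hε, hεK⟩ := hK.exists_forall_le' hcont.continuousOn
    (fun t ht => norm_pos_iff.2 (hne t ht))
  refine ⟨c', hE.mono (le_max_left _ _) le_rfl, m, ε / 2, half_pos hε, fun F' hF' t ht htd h0 => ?_⟩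
  have h1 := hF' t ht
  have h2 := hεK t ⟨ht, htd⟩
  rw [h0, zero_sub, norm_neg] at h1
  linarith

lemma fusion (c₀ : Cfg) (P : ℕ → Finset ℝ → (ℝ → ℂ) → Prop) (hP : ∀ n, Req (P n)) :
    ∃ (c : ℕ → Cfg) (R ε : ℕ → ℝ), c 0 = c₀ ∧ (∀ n : ℕ, (n : ℝ) ≤ R n) ∧
      (∀ n k, n ≤ k → Ext (c n) (c k) (R n) (ε n)) ∧
      ∀ n F', Close F' (c (n + 1)).F (R (n + 1)) (ε (n + 1)) → P n (c (n + 1)).L F' := by
  have step : ∀ (n : ℕ) (s : Cfg × ℝ × {ε : ℝ // 0 < ε}), ∃ s' : Cfg × ℝ × {ε : ℝ // 0 < ε},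
      Ext s.1 s'.1 s.2.1 (s.2.2 / 2) ∧ s.2.1 + 1 ≤ s'.2.1 ∧ (s'.2.2 : ℝ) ≤ s.2.2 / 2 ∧
      ∀ F', Close F' s'.1.F s'.2.1 s'.2.2 → P n s'.1.L F' := by
    rintro n ⟨c, R, ε, hε⟩
    obtain ⟨c', hE, R', η', hη', h⟩ := hP n c R (ε / 2) (half_pos hε)
    refine ⟨⟨c', max (R + 1) R', min (ε / 2) η', lt_min (half_pos hε) hη'⟩, hE, le_max_left _ _,
      min_le_left _ _, fun F' hF' => h F' fun t ht => ?_⟩
    exact (hF' t (ht.trans (le_max_right _ _))).trans (min_le_right _ _)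
  choose f hf using step
  let s : ℕ → Cfg × ℝ × {ε : ℝ // 0 < ε} := fun n =>
    Nat.rec (c₀, 0, ⟨1, one_pos⟩) (fun n s => f n s) n
  have hs : ∀ n, s (n + 1) = f n (s n) := fun n => rfl
  have hR : ∀ n k, n ≤ k → (s n).2.1 ≤ (s k).2.1 := by
    intro n k hnk
    induction k, hnk using Nat.le_induction with
    | base => exact le_rfl
    | succ k _ ih => have := (hf k (s k)).2.1; rw [hs]; linarith
  refine ⟨fun n => (s n).1, fun n => (s n).2.1, fun n => (s n).2.2, rfl, ?_, ?_, ?_⟩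
  · intro n
    induction n with
    | zero => simp [s]
    | succ n ih => have := (hf n (s n)).2.1; simp only [hs]; push_cast; linarith
  · intro n k hnk
    have key : Ext (s n).1 (s k).1 (s n).2.1 ((s n).2.2 - (s k).2.2) := by
      induction k, hnk using Nat.le_induction with
      | base => exact Ext.refl _ _ (by simp)
      | succ k hk ih =>
        have h1 := (hf k (s k)).1.mono (hR n k hk) le_rfl
        have h2 := (hf k (s k)).2.2.1
        rw [hs]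
        exact (ih.trans h1).mono le_rfl (by linarith)
    exact key.mono le_rfl (by linarith [(s k).2.2.2])
  · intro n F' hF'
    exact (hf n (s n)).2.2.2 F' hF'

end Pool.Agent.H590Z.Fug
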