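import Pool.Agent.H590Z.Fug.Greedy

set_option autoImplicit false
set_option linter.unusedSectionVars false

open Filter Topology Finset ComplexConjugate MeasureTheory

namespace Pool.Agent.H590Z.Fug

/-- Fourier transform of a measure. -/
noncomputable def FT (μ : Measure ℝ) (t : ℝ) : ℂ := ∫ x, ex (t * x) ∂μ

/-- The measure of a stage. -/
noncomputable def Cfg.meas (c : Cfg) : Measure ℝ :=
  ∑ i, ENNReal.ofReal (c.p i) • Measure.dirac (c.x i)

instance (c : Cfg) : IsProbabilityMeasure c.meas := by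
  constructor
  simp only [Cfg.meas, Measure.coe_finsetSum, Finset.sum_apply, Measure.smul_apply,
    measure_univ, smul_eq_mul, mul_one]
  rw [← ENNReal.ofReal_sum_of_nonneg (fun i _ => (c.p_pos i).le), c.sum_p, ENNReal.ofReal_one]

lemma Cfg.meas_compl (c : Cfg) : c.meas (Set.Icc (0 : ℝ) 1)ᶜ = 0 := by
  simp only [Cfg.meas, Measure.coe_finsetSum, Finset.sum_apply, Measure.smul_apply, smul_eq_mul]
  refine Finset.sum_eq_zero fun i _ => ?_
  rw [Measure.dirac_apply, Set.indicator_of_notMem, mul_zero]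
  exact fun h => h (Set.Ioo_subset_Icc_self (c.x_mem i))

lemma integrable_ex (μ : Measure ℝ) [IsFiniteMeasure μ] (t : ℝ) :
    Integrable (fun x => ex (t * x)) μ :=
  Integrable.of_bound (by fun_prop) 1 (Eventually.of_forall fun x => by simp)

lemma Cfg.FT_meas (c : Cfg) (t : ℝ) : FT c.meas t = c.F t := by
  unfold FT Cfg.meas
  rw [integral_finsetSum_measure]
  · refine Finset.sum_congr rfl fun i _ => ?_
    rw [integral_smul_measure, integral_dirac, ENNReal.toReal_ofReal (c.p_pos i).le]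
    simp
  · intro i _
    exact (integrable_ex _ t).smul_measure ENNReal.ofReal_ne_top

lemma exists_limit (c : ℕ → Cfg) : ∃ μ : Measure ℝ, IsProbabilityMeasure μ ∧
    μ (Set.Icc (0 : ℝ) 1)ᶜ = 0 ∧ ∃ φ : ℕ → ℕ, StrictMono φ ∧
      ∀ t, Tendsto (fun n => (c (φ n)).F t) atTop (𝓝 (FT μ t)) := by
  have hK := isCompact_setOfPred_probabilityMeasure_mass_eq_compl_isCompact_le (E := ℝ)
    (u := fun _ => 0) (K := fun _ => Set.Icc (0 : ℝ) 1) tendsto_const_nhds
    (fun _ => isCompact_Icc) (Or.inl inferInstance)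
  let m : ℕ → ProbabilityMeasure ℝ := fun n => ⟨(c n).meas, inferInstance⟩
  obtain ⟨μ, hμ, φ, hφ, hlim⟩ := hK.tendsto_subseq (x := m) (by
    intro n k
    have : (m n : Measure ℝ) (Set.Icc (0 : ℝ) 1)ᶜ = 0 := (c n).meas_compl
    rw [← ProbabilityMeasure.null_iff_toMeasure_null] at this
    exact this.le)
  refine ⟨μ, inferInstance, ?_, φ, hφ, fun t => ?_⟩
  · rw [← ProbabilityMeasure.null_iff_toMeasure_null]
    exact le_antisymm (hμ 0) zero_le
  · let f : BoundedContinuousFunction ℝ ℂ := BoundedContinuousFunction.ofNormedAddCommGroup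
      (fun x => ex (t * x)) (by fun_prop) 1 (fun x => by simp)
    have := (ProbabilityMeasure.tendsto_iff_forall_integral_rclike_tendsto ℂ).1 hlim f
    simp only [← Cfg.FT_meas]
    exact this

lemma exists_start : ∃ c : Cfg, ∃ a ∈ c.L, ∃ b ∈ c.L, a ≠ b := by
  have hd : ∀ d ∈ dif ∅, d = 0 := by
    intro d hd
    simpa using mem_dif.1 hd
  let c₀ : Cfg :=
    { ι := Unit
      fin := inferInstance
      x := fun _ => 1 / 2
      p := fun _ => 1
      L := ∅
      p_pos := fun _ => one_pos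
      x_mem := fun _ => by norm_num
      orth := by
        intro d h
        rw [hd d h]; simp [ft]
      indep := by
        rw [Fintype.linearIndependent_iff]
        intro g hg d
        have h1 := congrFun hg ()
        have h2 : ∀ d' : dif ∅, d' = d := fun d' =>
          Subtype.ext ((hd _ d'.2).trans (hd _ d.2).symm)
        rw [Finset.sum_apply, Finset.sum_eq_single d (fun d' _ h => (h (h2 d')).elim)
          (fun h => (h (Finset.mem_univ _)).elim)] at h1
        simpa [ex_ne_zero] using h1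
      qind := fun d h _ _ h0 => (h0 (hd d h)).elim }
  obtain ⟨c₁, a, -, hL₁, -⟩ := step_add c₀ (fun _ => 0) (by simp) (by simp) 0 0 one_pos
  obtain ⟨c₂, b, hb, hL₂, -⟩ := step_add c₁ (fun _ => 0) (by simp) (by simp) 0 0 one_pos
  refine ⟨c₂, a, by simp [hL₂, hL₁], b, by simp [hL₂], fun h => hb ?_⟩
  rw [← h, hL₁]; simp

theorem exists_measure : ∃ μ : Measure ℝ, IsProbabilityMeasure μ ∧
    μ (Set.Icc (0 : ℝ) 1)ᶜ = 0 ∧ ∃ Λ : Set ℝ,
      (∀ a ∈ Λ, ∀ b ∈ Λ, FT μ (a - b) = if a = b then 1 else 0) ∧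
      (∀ ξ : ℚ, ∀ δ : ℝ, 0 < δ → ∃ L : Finset ℝ, (L : Set ℝ) ⊆ Λ ∧ En L (FT μ) ξ < δ) ∧
      (∃ d, FT μ d = 0) ∧ ∀ b : ℝ, b ≠ 0 → {n : ℤ | FT μ (n * b) = 0}.Finite := by
  obtain ⟨c₀, a₀, ha₀, b₀, hb₀, hab⟩ := exists_start
  obtain ⟨e, he⟩ := exists_surjective_nat ((ℚ × ℕ) ⊕ ℕ)
  let Q : (ℚ × ℕ) ⊕ ℕ → Finset ℝ → (ℝ → ℂ) → Prop :=
    Sum.elim (fun z L F' => En L F' z.1 < 1 / ((z.2 : ℝ) + 1))
      (fun m L F' => ∀ t : ℝ, |t| ≤ m →
        (∀ d ∈ dif L, d ≠ 0 → 1 / ((m : ℝ) + 1) ≤ |t - d|) → F' t ≠ 0)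
  have hQ : ∀ j, Req (Q j) := by
    rintro (z | m)
    · exact req_complete _ (by positivity)
    · exact req_nozero m
  obtain ⟨c, R, ε, hc0, hR, hE, hP⟩ := fusion c₀ (fun n => Q (e n)) (fun n => hQ _)
  obtain ⟨μ, hμ, hsupp, φ, hφ, hlim⟩ := exists_limit c
  have hclose : ∀ n, Close (FT μ) (c n).F (R n) (ε n) := by
    intro n t ht
    refine le_of_tendsto ((hlim t).sub_const ((c n).F t)).norm ?_
    filter_upwards [eventually_ge_atTop n] with k hk
    exact (hE n (φ k) (hk.trans (hφ.id_le k))).close t ht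
  have horth : ∀ n, ∀ d ∈ dif (c n).L, FT μ d = if d = 0 then 1 else 0 := by
    intro n d hd
    refine tendsto_nhds_unique (hlim d) (tendsto_const_nhds.congr' ?_)
    filter_upwards [eventually_ge_atTop n] with k hk
    exact ((c (φ k)).orth d (dif_mono (hE n (φ k) (hk.trans (hφ.id_le k))).sub hd)).symm
  have hQ' : ∀ j, ∃ n, Q j (c n).L (FT μ) := by
    intro j
    obtain ⟨n, rfl⟩ := he j
    exact ⟨n + 1, hP n _ (hclose _)⟩
  have hzero : ∀ t, FT μ t = 0 → ∃ n, t ∈ dif (c n).L ∧ t ≠ 0 := by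
    intro t ht
    obtain ⟨N, hN⟩ := exists_nat_ge (|t| + 1)
    have hcl : IsClosed (((dif (c N).L).erase 0 : Finset ℝ) : Set ℝ) :=
      (Finset.finite_toSet _).isClosed
    have hmem : t ∈ (((dif (c N).L).erase 0 : Finset ℝ) : Set ℝ) := by
      rw [← hcl.closure_eq, Metric.mem_closure_iff]
      intro δ hδ
      obtain ⟨m₀, hm₀⟩ := exists_nat_one_div_lt hδ
      obtain ⟨n, hn⟩ := hQ' (Sum.inr (max m₀ N))
      have h1 : |t| ≤ ((max m₀ N : ℕ) : ℝ) := by
        have : (N : ℝ) ≤ ((max m₀ N : ℕ) : ℝ) := by exact_mod_cast le_max_right _ _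
        linarith
      by_contra hcon
      refine hn t h1 (fun d hd hd0 => ?_) ht
      by_contra hlt
      push Not at hlt
      have h2 : 1 / (((max m₀ N : ℕ) : ℝ) + 1) ≤ 1 / ((m₀ : ℝ) + 1) := by
        have : (m₀ : ℝ) ≤ ((max m₀ N : ℕ) : ℝ) := by exact_mod_cast le_max_left _ _
        gcongr
      have h3 : 1 / ((m₀ : ℝ) + 1) ≤ 1 := by
        rw [div_le_one (by positivity)]; linarith [(Nat.cast_nonneg m₀ : (0 : ℝ) ≤ m₀)]
      have h4 : d ∈ dif (c N).L := by
        rcases le_total n N with h | h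
        · exact dif_mono (hE n N h).sub hd
        · by_contra h5
          have h6 := (hE N n h).far d hd h5
          have h7 := hR N
          have h8 : |d| ≤ |t| + |t - d| := by
            have := abs_sub t (t - d)
            rwa [sub_sub_cancel] at this
          linarith
      apply hcon
      refine ⟨d, by simp [hd0, h4], ?_⟩
      rw [Real.dist_eq]; linarith
    simp only [Finset.coe_erase, Set.mem_sdiff, Finset.mem_coe, Set.mem_singleton_iff] at hmem
    exact ⟨N, hmem.1, hmem.2⟩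
  refine ⟨μ, hμ, hsupp, ⋃ n, ((c n).L : Set ℝ), ?_, ?_, ?_, ?_⟩
  · intro a ha b hb
    obtain ⟨n, hn⟩ := Set.mem_iUnion.1 ha
    obtain ⟨k, hk⟩ := Set.mem_iUnion.1 hb
    have h1 : a ∈ (c (max n k)).L := (hE n _ (le_max_left _ _)).sub hn
    have h2 : b ∈ (c (max n k)).L := (hE k _ (le_max_right _ _)).sub hk
    simpa [sub_eq_zero] using horth _ _ (sub_mem_dif h1 h2)
  · intro ξ δ hδ
    obtain ⟨m, hm⟩ := exists_nat_one_div_lt hδ
    obtain ⟨n, hn⟩ := hQ' (Sum.inl (ξ, m))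
    exact ⟨(c n).L, Set.subset_iUnion (fun n => ((c n).L : Set ℝ)) n, lt_trans hn hm⟩
  · refine ⟨a₀ - b₀, ?_⟩
    have := horth 0 _ (sub_mem_dif (hc0 ▸ ha₀) (hc0 ▸ hb₀))
    simpa [sub_eq_zero, hab] using this
  · intro b hb
    rcases Set.eq_empty_or_nonempty {n : ℤ | FT μ (n * b) = 0} with h | ⟨n₀, hn₀⟩
    · rw [h]; exact Set.finite_empty
    · refine (Set.toFinite {n₀, -n₀}).subset fun n hn => ?_
      obtain ⟨k₀, hk₀, h0⟩ := hzero _ hn₀
      obtain ⟨k, hk, h1⟩ := hzero _ hn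
      have h2 := dif_mono (hE k₀ _ (le_max_left k₀ k)).sub hk₀
      have h3 := dif_mono (hE k _ (le_max_right k₀ k)).sub hk
      have h4 : n₀ ≠ 0 := by rintro rfl; simp at h0
      have h5 : n ≠ 0 := by rintro rfl; simp at h1
      rcases (c (max k₀ k)).qind _ h2 _ h3 h0 h1 n₀ n h4 h5 (by ring) with h6 | h6
      · left; exact_mod_cast mul_right_cancel₀ hb h6
      · right
        rw [← neg_mul] at h6
        exact_mod_cast mul_right_cancel₀ hb h6

end Pool.Agent.H590Z.Fug
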