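import Pool.Agent.H590Z.Fug.Complete

set_option autoImplicit false
set_option linter.unusedSectionVars false

open Filter Topology Finset ComplexConjugate MeasureTheory

namespace Pool.Agent.H590Z.Fug

lemma circle_ext {a : ℝ} [Fact (0 < a)] (P P' : Measure (AddCircle a)) [IsFiniteMeasure P]
    [IsFiniteMeasure P'] (h : ∀ n : ℤ, ∫ x, fourier n x ∂P = ∫ x, fourier n x ∂P') : P = P' := by
  have hint : ∀ (P : Measure (AddCircle a)) [IsFiniteMeasure P] (f : C(AddCircle a, ℂ)),
      Integrable f P := fun P _ f =>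
    Integrable.of_bound f.continuous.aestronglyMeasurable ‖f‖
      (Eventually.of_forall fun x => f.norm_coe_le_norm x)
  have hI : ∀ (P : Measure (AddCircle a)) [IsFiniteMeasure P],
      ∃ I : C(AddCircle a, ℂ) →L[ℂ] ℂ, ∀ f, I f = ∫ x, f x ∂P := by
    intro P _
    let I₀ : C(AddCircle a, ℂ) →ₗ[ℂ] ℂ :=
      { toFun := fun f => ∫ x, f x ∂P
        map_add' := fun f g => by
          simp only [ContinuousMap.add_apply]
          exact integral_add (hint P f) (hint P g)
        map_smul' := fun c f => by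
          simp only [ContinuousMap.smul_apply, RingHom.id_apply]
          exact integral_smul c f }
    refine ⟨I₀.mkContinuous (P.real Set.univ) fun f => ?_, fun f => rfl⟩
    rw [mul_comm]
    exact norm_integral_le_of_norm_le_const (Eventually.of_forall fun x => f.norm_coe_le_norm x)
  obtain ⟨I, hI1⟩ := hI P
  obtain ⟨I', hI2⟩ := hI P'
  have h1 : Submodule.span ℂ (Set.range (@fourier a)) ≤ (I - I').ker := by
    rw [Submodule.span_le]
    rintro _ ⟨n, rfl⟩
    change I (fourier n) - I' (fourier n) = 0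
    rw [hI1, hI2, h n, sub_self]
  have h2 := Submodule.topologicalClosure_minimal _ h1 (I - I').isClosed_ker
  rw [span_fourier_closure_eq_top] at h2
  apply ext_of_forall_integral_eq_of_IsFiniteMeasure
  intro f
  let g : C(AddCircle a, ℂ) := ⟨fun x => (f x : ℂ), by fun_prop⟩
  have h3 : (I - I') g = 0 := h2 (Submodule.mem_top (x := g))
  change I g - I' g = 0 at h3
  rw [hI1, hI2, sub_eq_zero] at h3
  apply Complex.ofReal_injective
  rw [← integral_complex_ofReal, ← integral_complex_ofReal]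
  exact h3

/-- Periodic sets. -/
def Per (a : ℝ) (U : Set ℝ) : Prop := ∀ (y : ℝ) (k : ℤ), y + k * a ∈ U ↔ y ∈ U

lemma periodic_ext {a : ℝ} (ha : 0 < a) (κ κ' : Measure ℝ) [IsFiniteMeasure κ]
    [IsFiniteMeasure κ'] (h : ∀ n : ℤ, FT κ (n * a⁻¹) = FT κ' (n * a⁻¹)) {U : Set ℝ}
    (hU : MeasurableSet U) (hper : Per a U) : κ U = κ' U := by
  have : Fact (0 < a) := ⟨ha⟩
  have hm : Measurable (fun x : ℝ => (x : AddCircle a)) := AddCircle.measurable_mk'
  have h1 : ∀ (κ : Measure ℝ) (n : ℤ),
      ∫ x, fourier n x ∂(κ.map fun x : ℝ => (x : AddCircle a)) = FT κ (n * a⁻¹) := by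
    intro κ n
    rw [integral_map hm.aemeasurable (fourier n).continuous.aestronglyMeasurable]
    unfold FT ex
    congr 1; funext x
    rw [fourier_coe_apply]; congr 1; push_cast; ring
  have h2 := circle_ext (κ.map fun x : ℝ => (x : AddCircle a))
    (κ'.map fun x : ℝ => (x : AddCircle a)) (fun n => by rw [h1, h1, h])
  have h3 : (fun x : ℝ => (x : AddCircle a)) ⁻¹' ((fun x : ℝ => (x : AddCircle a)) '' U) = U := by
    ext x
    constructor
    · rintro ⟨y, hy, hxy⟩
      have h4 := QuotientAddGroup.eq.1 hxy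
      obtain ⟨k, hk⟩ := AddSubgroup.mem_zmultiples_iff.1 h4
      have h5 : x = y + k * a := by rw [← zsmul_eq_mul, hk]; ring
      rw [h5]; exact (hper y k).2 hy
    · intro hx; exact ⟨x, hx, rfl⟩
  have h4 : MeasurableSet ((fun x : ℝ => (x : AddCircle a)) '' U) := by
    rw [measurableSet_quotient]
    exact h3.symm ▸ hU
  rw [← h3, ← Measure.map_apply hm h4, ← Measure.map_apply hm h4, h2]

lemma int_Ioc {a : ℝ} (ha : 0 < a) (n : ℤ) :
    ∫ x in Set.Ioc 0 a, ex (n * a⁻¹ * x) = if n = 0 then (a : ℂ) else 0 := by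
  split_ifs with hn
  · simp [hn, ha.le]
  · rw [← intervalIntegral.integral_of_le ha.le]
    have haC : (a : ℂ) ≠ 0 := by exact_mod_cast ha.ne'
    have hc : (2 * (Real.pi : ℂ) * Complex.I * (n * (a : ℂ)⁻¹)) ≠ 0 := by
      simp [Real.pi_ne_zero, hn, haC]
    have h1 : ∀ x : ℝ, ex (n * a⁻¹ * x)
        = Complex.exp ((2 * (Real.pi : ℂ) * Complex.I * (n * (a : ℂ)⁻¹)) * x) := by
      intro x; unfold ex; congr 1; push_cast; ring
    simp only [h1]
    rw [integral_exp_mul_complex hc, ← h1, ← h1, mul_assoc, inv_mul_cancel₀ ha.ne', mul_one,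
      ex_int]
    simp

lemma null_of_finite {a : ℝ} (ha : 0 < a) (ν : Measure ℝ) [IsProbabilityMeasure ν]
    (hfin : {n : ℤ | FT ν (n * a⁻¹) ≠ 0}.Finite) {U : Set ℝ} (hU : MeasurableSet U)
    (hper : Per a U) (hν : ν U = 0) : volume (U ∩ Set.Ioc 0 a) = 0 := by
  classical
  have haC : (a : ℂ) ≠ 0 := by exact_mod_cast ha.ne'
  let S := hfin.toFinset
  let P : ℝ → ℂ := fun y => ∑ n ∈ S, (FT ν (n * a⁻¹) / a) * ex (-n * a⁻¹ * y)
  have hPc : Continuous P := by fun_prop
  let m : Measure ℝ := volume.restrict (Set.Ioc 0 a)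
  have hP : ∀ k : ℤ, ∫ y, P y * ex (k * a⁻¹ * y) ∂m = FT ν (k * a⁻¹) := by
    intro k
    have h1 : ∀ y, P y * ex (k * a⁻¹ * y)
        = ∑ n ∈ S, (FT ν (n * a⁻¹) / a) * ex (((k - n : ℤ) : ℝ) * a⁻¹ * y) := by
      intro y
      simp only [P, Finset.sum_mul]
      refine Finset.sum_congr rfl fun n _ => ?_
      rw [mul_assoc, ← ex_add]; congr 2; push_cast; ring
    simp only [h1]
    rw [integral_finsetSum _ fun n _ => (integrable_ex m _).const_mul _]
    simp only [integral_const_mul, m, int_Ioc ha, sub_eq_zero]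
    rw [Finset.sum_eq_single k]
    · simp [haC]
    · intro n _ hn; simp [hn.symm]
    · intro hk
      have : FT ν (k * a⁻¹) = 0 := by simpa [S] using hk
      simp [this]
  let ρ : ℝ → ℝ := fun y => (P y).re
  have hρc : Continuous ρ := by fun_prop
  have hPi : Integrable P m := hPc.integrableOn_Ioc
  have hρi : Integrable ρ m := hρc.integrableOn_Ioc
  have hρ : ∀ k : ℤ, ∫ y, (ρ y : ℂ) * ex (k * a⁻¹ * y) ∂m = FT ν (k * a⁻¹) := by
    intro k
    have h1 : ∫ y, conj (P y) * ex (k * a⁻¹ * y) ∂m = FT ν (k * a⁻¹) := by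
      have := congrArg conj (hP (-k))
      rw [← integral_conj] at this
      simp only [Int.cast_neg, neg_mul, ex_neg, map_mul, Complex.conj_conj, FT_neg] at this
      exact this
    have h2 : ∀ y, (ρ y : ℂ) * ex (k * a⁻¹ * y)
        = (1 / 2 : ℂ) * (P y * ex (k * a⁻¹ * y) + conj (P y) * ex (k * a⁻¹ * y)) := by
      intro y
      have h3 : (ρ y : ℂ) = (P y + conj (P y)) / 2 := by
        rw [Complex.add_conj]; simp only [ρ]; push_cast; ring
      rw [h3]; ring
    simp only [h2]
    rw [integral_const_mul, integral_add (integrable_mul_ex hPi _), hP, h1]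
    · ring
    · exact integrable_mul_ex (Complex.conjCLE.toContinuousLinearMap.integrable_comp hPi) _
  have hρper : ∀ y (k : ℤ), ρ (y + k * a) = ρ y := by
    intro y k
    simp only [ρ, P]
    congr 1
    refine Finset.sum_congr rfl fun n _ => ?_
    have : -n * a⁻¹ * (y + k * a) = -n * a⁻¹ * y + ((-n * k : ℤ) : ℝ) := by
      push_cast; field_simp; ring
    rw [this, ex_add, ex_int, mul_one]
  have hfin1 := isFiniteMeasure_withDensity_ofReal hρi.2
  have hfin2 := isFiniteMeasure_withDensity_ofReal hρi.neg.2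
  have hm1 : Measurable (fun x => ENNReal.ofReal (ρ x)) := hρc.measurable.ennreal_ofReal
  have hm2 : Measurable (fun x => ENNReal.ofReal ((-ρ) x)) := hρc.neg.measurable.ennreal_ofReal
  have key : ∀ V : Set ℝ, MeasurableSet V → Per a V →
      (ν + m.withDensity (fun x => ENNReal.ofReal ((-ρ) x))) V
        = m.withDensity (fun x => ENNReal.ofReal (ρ x)) V := by
    intro V hV hVp
    refine periodic_ext ha _ _ (fun n => ?_) hV hVp
    unfold FT
    rw [integral_add_measure (integrable_ex _ _) (integrable_ex _ _),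
      integral_withDensity_eq_integral_toReal_smul hm1 (by simp),
      integral_withDensity_eq_integral_toReal_smul hm2 (by simp)]
    simp only [ENNReal.toReal_ofReal', Complex.real_smul]
    rw [← eq_sub_iff_add_eq, ← integral_sub]
    · refine (hρ n).symm.trans (integral_congr_ae (Eventually.of_forall fun x => ?_))
      simp only [Pi.neg_apply]
      rw [← sub_mul, ← Complex.ofReal_sub, max_zero_sub_max_neg_zero_eq_self]
    · exact integrable_mul_ex (hρi.pos_part.ofReal) _
    · exact integrable_mul_ex (hρi.neg.pos_part.ofReal) _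
  have hzero : ∀ (g : ℝ → ℝ) (V : Set ℝ), Continuous g → MeasurableSet V → (∀ x ∈ V, 0 < g x) →
      m.withDensity (fun x => ENNReal.ofReal (g x)) V = 0 → m V = 0 := by
    intro g V hg hV hpos h0
    rw [withDensity_apply_eq_zero hg.measurable.ennreal_ofReal] at h0
    refine measure_mono_null (fun x hx => ?_) h0
    refine ⟨?_, hx⟩
    simpa using hpos x hx
  have hzero' : ∀ (g : ℝ → ℝ) (V : Set ℝ), Continuous g → (∀ x ∈ V, g x < 0) →
      m.withDensity (fun x => ENNReal.ofReal (g x)) V = 0 := by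
    intro g V hg hneg
    rw [withDensity_apply_eq_zero hg.measurable.ennreal_ofReal]
    refine measure_mono_null (t := ∅) (fun x hx => ?_) measure_empty
    have h1 := hneg x hx.2
    have h2 := hx.1
    simp only [ne_eq, ENNReal.ofReal_eq_zero, not_le, Set.mem_ofPred_eq] at h2
    exact (lt_asymm h1 h2).elim
  have hp : m (U ∩ {y | 0 < ρ y}) = 0 := by
    have hV : MeasurableSet (U ∩ {y | 0 < ρ y}) :=
      hU.inter (isOpen_lt continuous_const hρc).measurableSet
    refine hzero ρ _ hρc hV (fun x hx => hx.2) ?_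
    rw [← key _ hV (fun y k => by simp [hper y k, hρper]), Measure.add_apply,
      measure_mono_null Set.inter_subset_left hν,
      hzero' (-ρ) _ hρc.neg (fun x hx => by simpa using hx.2), add_zero]
  have hn : m (U ∩ {y | ρ y < 0}) = 0 := by
    have hV : MeasurableSet (U ∩ {y | ρ y < 0}) :=
      hU.inter (isOpen_lt hρc continuous_const).measurableSet
    refine hzero (-ρ) _ hρc.neg hV (fun x hx => by simpa using hx.2) ?_
    have h1 := key _ hV (fun y k => by simp [hper y k, hρper])
    rw [hzero' ρ _ hρc (fun x hx => hx.2), Measure.add_apply, add_eq_zero] at h1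
    exact h1.2
  have hz : m {y | ρ y = 0} = 0 := by
    have han : AnalyticOnNhd ℝ ρ Set.univ := by
      intro t ht
      refine (Complex.reCLM.analyticAt _).comp ?_
      have : P = ∑ n ∈ S, fun y => (FT ν (n * a⁻¹) / a) * ex (-n * a⁻¹ * y) := by
        funext y; simp [P]
      change AnalyticAt ℝ P t
      rw [this]
      refine Finset.analyticAt_sum _ fun n _ => analyticAt_const.mul ?_
      have h1 := analytic_ft (fun _ : Unit => -n * a⁻¹) (fun _ => 1) t ht
      have h2 : ft (fun _ : Unit => -n * a⁻¹) (fun _ => 1) = fun y => ex (-n * a⁻¹ * y) := by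
        funext y; simp [ft, mul_comm]
      rwa [h2] at h1
    obtain ⟨t₀, ht₀⟩ : ∃ t₀, ρ t₀ ≠ 0 := by
      by_contra hcon
      push Not at hcon
      have := hρ 0
      simp [hcon, FT_zero] at this
    have h1 := (finite_zeros han ht₀ a).measure_zero volume
    rw [Measure.restrict_apply' measurableSet_Ioc]
    refine measure_mono_null (fun y hy => ?_) h1
    refine ⟨?_, hy.1⟩
    rw [abs_of_pos hy.2.1]; exact hy.2.2
  rw [← Measure.restrict_apply' measurableSet_Ioc]
  refine measure_mono_null (fun y hy => ?_) (measure_union_null (measure_union_null hp hn) hz)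
  rcases lt_trichotomy (ρ y) 0 with h | h | h
  · exact Or.inl (Or.inr ⟨hy, h⟩)
  · exact Or.inr h
  · exact Or.inl (Or.inl ⟨hy, h⟩)

lemma no_shift {Q : Set ℝ} (hfin : volume Q ≠ ⊤) (hpos : volume Q ≠ 0) {h : ℝ} (hh : 0 < h)
    (hae : ∀ᵐ z ∂(volume : Measure ℝ), z ∈ Q → z + h ∈ Q) : False := by
  let G : ℝ → ENNReal := fun t => volume (Q ∩ Set.Ioi t)
  have h1 : ∀ t, G t ≤ G (t + h) := by
    intro t
    have h2 : G (t + h) = volume ((fun z => z + h) ⁻¹' (Q ∩ Set.Ioi (t + h))) :=
      (measure_preimage_add_right volume h _).symm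
    rw [h2]
    refine measure_mono_ae ?_
    filter_upwards [hae] with z hz hz2
    exact ⟨hz hz2.1, by simpa using hz2.2⟩
  have h2 : ∀ t (n : ℕ), G t ≤ G (t + n * h) := by
    intro t n
    induction n with
    | zero => simp
    | succ n ih =>
      refine ih.trans (le_of_le_of_eq (h1 _) ?_)
      congr 1; push_cast; ring
  have h3 : ∀ t, G t = 0 := by
    intro t
    have hfm : IsFiniteMeasure (volume.restrict Q) := isFiniteMeasure_restrict.2 hfin
    have h4 : Tendsto (fun n : ℕ => volume.restrict Q (Set.Ioi (t + n * h))) atTop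
        (𝓝 (volume.restrict Q (⋂ n : ℕ, Set.Ioi (t + n * h)))) := by
      refine tendsto_measure_iInter_atTop (fun n => measurableSet_Ioi.nullMeasurableSet) ?_
        ⟨0, measure_ne_top _ _⟩
      intro i j hij
      apply Set.Ioi_subset_Ioi
      have : (i : ℝ) ≤ j := by exact_mod_cast hij
      nlinarith
    have h5 : (⋂ n : ℕ, Set.Ioi (t + n * h)) = ∅ := by
      rw [Set.eq_empty_iff_forall_notMem]
      intro y hy
      obtain ⟨n, hn⟩ := exists_nat_gt ((y - t) / h)
      have := Set.mem_iInter.1 hy n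
      rw [div_lt_iff₀ hh] at hn
      simp only [Set.mem_Ioi] at this
      linarith
    rw [h5, measure_empty] at h4
    refine le_antisymm (ge_of_tendsto' h4 fun n => ?_) zero_le
    rw [Measure.restrict_apply measurableSet_Ioi, Set.inter_comm]
    exact h2 t n
  apply hpos
  refine measure_mono_null (t := ⋃ n : ℕ, Q ∩ Set.Ioi (-(n : ℝ))) (fun y hy => ?_)
    (measure_iUnion_null fun n => h3 _)
  obtain ⟨n, hn⟩ := exists_nat_gt (-y)
  exact Set.mem_iUnion.2 ⟨n, hy, by simp only [Set.mem_Ioi]; linarith⟩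

theorem no_tile {μ ν : Measure ℝ} [IsProbabilityMeasure μ] [IsProbabilityMeasure ν] {a : ℝ}
    (ha : 0 < a) {Q : Set ℝ} (hQ : MeasurableSet Q) (hfd : ∀ x : ℝ, ∃! k : ℤ, x + (k : ℝ) * a ∈ Q)
    (hconv : (μ.prod ν).map (fun p : ℝ × ℝ => p.1 + p.2)
      = (ENNReal.ofReal a)⁻¹ • volume.restrict Q)
    (hfin : {n : ℤ | FT μ (n * a⁻¹) = 0}.Finite) (hz : ∃ d, FT μ d = 0) : False := by
  have hadd : Measurable (fun p : ℝ × ℝ => p.1 + p.2) := measurable_add
  have hD : IsAddFundamentalDomain (AddSubgroup.zmultiples a) Q volume := by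
    refine IsAddFundamentalDomain.mk' hQ.nullMeasurableSet fun x => ?_
    obtain ⟨k, hk, hu⟩ := hfd x
    refine ⟨⟨k • a, AddSubgroup.zsmul_mem_zmultiples a k⟩, ?_, ?_⟩
    · change k • a + x ∈ Q
      rwa [zsmul_eq_mul, add_comm]
    · rintro ⟨g, hg⟩ hg2
      obtain ⟨k', rfl⟩ := AddSubgroup.mem_zmultiples_iff.1 hg
      have : k' = k := by
        apply hu
        change k' • a + x ∈ Q at hg2
        rwa [zsmul_eq_mul, add_comm] at hg2
      simp [this]
  have hI : IsAddFundamentalDomain (AddSubgroup.zmultiples a) (Set.Ioc 0 a) volume := by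
    simpa using isAddFundamentalDomain_Ioc ha 0 volume
  have hvol : volume Q = ENNReal.ofReal a := by
    rw [hD.measure_eq hI]; simp
  have hprod : ∀ n : ℤ, n ≠ 0 → FT μ (n * a⁻¹) * FT ν (n * a⁻¹) = 0 := by
    intro n hn
    have h1 : FT μ (n * a⁻¹) * FT ν (n * a⁻¹)
        = FT ((μ.prod ν).map (fun p : ℝ × ℝ => p.1 + p.2)) (n * a⁻¹) := by
      unfold FT
      rw [integral_map hadd.aemeasurable (by fun_prop), ← integral_prod_mul]
      simp only [mul_add, ex_add]
    rw [h1, hconv]
    unfold FT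
    rw [integral_smul_measure, hD.setIntegral_eq hI, int_Ioc ha, if_neg hn, smul_zero]
    rintro ⟨g, hg⟩ x
    obtain ⟨k, rfl⟩ := AddSubgroup.mem_zmultiples_iff.1 hg
    change ex (n * a⁻¹ * (k • a + x)) = _
    have : n * a⁻¹ * (k • a + x) = n * a⁻¹ * x + ((n * k : ℤ) : ℝ) := by
      rw [zsmul_eq_mul]; push_cast; field_simp; ring
    rw [this, ex_add, ex_int, mul_one]
  have hfin' : {n : ℤ | FT ν (n * a⁻¹) ≠ 0}.Finite := by
    refine (hfin.insert 0).subset fun n hn => ?_
    by_cases h0 : n = 0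
    · exact Or.inl h0
    · exact Or.inr ((mul_eq_zero.1 (hprod n h0)).resolve_right hn)
  have hG : ∀ᵐ x ∂μ, ∀ᵐ y ∂ν, x + y ∈ Q := by
    apply Measure.ae_ae_of_ae_prod (p := fun p : ℝ × ℝ => p.1 + p.2 ∈ Q)
    apply ae_of_ae_map (p := fun z => z ∈ Q) hadd.aemeasurable
    rw [hconv]
    exact Measure.ae_smul_measure (ae_restrict_mem hQ) _
  have hsub : ∀ x x' : ℝ, x < x' → (∀ᵐ y ∂ν, x + y ∈ Q) → (∀ᵐ y ∂ν, x' + y ∈ Q) → False := by
    intro x x' hxx h1 h2
    let U : Set ℝ := {y | ∀ k : ℤ, ¬(x + (y + k * a) ∈ Q ∧ x' + (y + k * a) ∈ Q)}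
    have hU : MeasurableSet U := by
      have : U = ⋂ k : ℤ, ((fun y => x + (y + k * a)) ⁻¹' Q ∩
          (fun y => x' + (y + k * a)) ⁻¹' Q)ᶜ := by
        ext y; simp [U]
      rw [this]
      exact MeasurableSet.iInter fun k =>
        ((hQ.preimage (by fun_prop)).inter (hQ.preimage (by fun_prop))).compl
    have hper : Per a U := by
      intro y j
      constructor
      · intro h k
        have := h (k - j)
        rwa [show y + j * a + ((k - j : ℤ) : ℝ) * a = y + k * a by push_cast; ring] at this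
      · intro h k
        have := h (j + k)
        rwa [show y + ((j + k : ℤ) : ℝ) * a = y + j * a + k * a by push_cast; ring] at this
    have hν : ν U = 0 := by
      rw [measure_eq_zero_iff_ae_notMem]
      filter_upwards [h1, h2] with y hy1 hy2 hy
      exact hy 0 (by simpa using ⟨hy1, hy2⟩)
    have h3 := null_of_finite ha ν hfin' hU hper hν
    have h4 : volume U = 0 := by
      refine hI.measure_zero_of_invariant U ?_ h3
      rintro ⟨g, hg⟩
      obtain ⟨k, rfl⟩ := AddSubgroup.mem_zmultiples_iff.1 hg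
      ext y
      rw [Set.mem_vadd_set_iff_neg_vadd_mem]
      change -(k • a) + y ∈ U ↔ _
      rw [← hper y (-k), zsmul_eq_mul]
      push_cast
      rw [add_comm, neg_mul]
    refine no_shift (Q := Q) (by simp [hvol]) (by simpa [hvol] using ha) (sub_pos.2 hxx) ?_
    have h5 : volume ((fun z => z + -x) ⁻¹' U) = 0 := by
      rw [measure_preimage_add_right]; exact h4
    rw [measure_eq_zero_iff_ae_notMem] at h5
    filter_upwards [h5] with z hz hzQ
    simp only [U, Set.mem_preimage, Set.mem_ofPred_eq, not_forall, not_not] at hz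
    obtain ⟨k, hk1, hk2⟩ := hz
    have h6 : k = 0 := by
      refine (hfd z).unique ?_ (by simpa using hzQ)
      rwa [show x + (z + -x + k * a) = z + k * a by ring] at hk1
    rw [h6] at hk2
    rwa [show x' + (z + -x + ((0 : ℤ) : ℝ) * a) = z + (x' - x) by push_cast; ring] at hk2
  obtain ⟨x₀, hx₀⟩ := hG.exists
  obtain ⟨d, hd⟩ := hz
  have h7 : (fun x => ex (d * x)) =ᵐ[μ] fun _ => ex (d * x₀) := by
    filter_upwards [hG] with x hx
    rcases lt_trichotomy x x₀ with h | h | h
    · exact (hsub _ _ h hx hx₀).elim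
    · rw [h]
    · exact (hsub _ _ h hx₀ hx).elim
  unfold FT at hd
  rw [integral_congr_ae h7] at hd
  simp [ex_ne_zero] at hd

end Pool.Agent.H590Z.Fug
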