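import Pool.Agent.H590Z.Fug.Add

set_option autoImplicit false
set_option linter.unusedSectionVars false

open Filter Topology Finset ComplexConjugate

namespace Pool.Agent.H590Z.Fug

/-- Every small family of exponentials with bounded frequencies is independent on the points. -/
def Rich (c : Cfg) (R : ℝ) (M : ℕ) : Prop :=
  ∀ T : Finset ℝ, (∀ t ∈ T, |t| ≤ R) → T.card ≤ M →
    LinearIndependent ℂ (fun (t : T) (i : c.ι) => ex (t * c.x i))

lemma step_split (c : Cfg) (R : ℝ) (M : ℕ) {η : ℝ} (hη : 0 < η) :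
    ∃ c' : Cfg, c'.L = c.L ∧ Ext c c' R η ∧ Rich c' R M := by
  classical
  let X : ℝ → c.ι × Fin (M + 1) → ℝ := fun h z => c.x z.1 + (z.2 : ℕ) * h
  let X₀ : c.ι × Fin (M + 1) → ℝ := fun z => c.x z.1
  let P₀ : c.ι × Fin (M + 1) → ℝ := fun z => c.p z.1 / (M + 1)
  have hX : Tendsto X (𝓝[>] 0) (𝓝 X₀) := by
    have h1 : Continuous X := by fun_prop
    have h2 : X 0 = X₀ := by funext z; simp [X, X₀]
    rw [← h2]
    exact (h1.tendsto 0).mono_left nhdsWithin_le_nhds
  let H : (c.ι × Fin (M + 1) → ℝ) → dif c.L → c.ι × Fin (M + 1) → ℂ := fun Y d z => ex (d * Y z)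
  have hH : Continuous H := by fun_prop
  have hG : Tendsto (fun l => H (X l)) (𝓝[>] 0) (𝓝 (H X₀)) := (hH.tendsto _).comp hX
  have hI : LinearIndependent ℂ (H X₀) := by
    rw [Fintype.linearIndependent_iff]
    intro g hg
    refine Fintype.linearIndependent_iff.1 c.indep g ?_
    funext i
    have := congrFun hg (i, 0)
    simpa [H, X₀] using this
  let σ : dif c.L → dif c.L := fun d => ⟨-d, neg_mem_dif d.2⟩
  have hσ : ∀ Y k z, H Y (σ k) z = conj (H Y k z) := by
    intro Y d z; simp [H, σ, ex_neg]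
  let cc : dif c.L → ℂ := fun d => if (d : ℝ) = 0 then 1 else 0
  have hcc : ∀ k, cc (σ k) = conj (cc k) := by
    intro d; by_cases hd : (d : ℝ) = 0 <;> simp [cc, σ, hd]
  have hsum : ∀ t, ft X₀ P₀ t = c.F t := by
    intro t
    simp only [ft, Cfg.F, Fintype.sum_prod_type, X₀, P₀]
    refine Finset.sum_congr rfl fun i _ => ?_
    have : ((M : ℂ) + 1) ≠ 0 := by exact_mod_cast Nat.succ_ne_zero M
    simp only [Finset.sum_const, Finset.card_univ, Fintype.card_fin, nsmul_eq_mul]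
    push_cast
    field_simp
  have hp : ∀ k, ∑ z, (P₀ z : ℂ) * H X₀ k z = cc k := by
    intro d
    exact (hsum d).trans (c.orth d d.2)
  obtain ⟨P, hP, hev⟩ := fix hG hI (fun l => hσ (X l)) hcc hp
  have hP0 : ∀ z, 0 < P₀ z := fun z => div_pos (c.p_pos _) (by positivity)
  have e1 := pos_eventually hP hP0
  have e2 := ioo_eventually hX (fun z => c.x_mem z.1)
  have e3 := ft_close hX hP R hη
  have e4 : ∀ᶠ h : ℝ in 𝓝[>] 0, 2 * |R| * h < 1 := by
    have h1 : Continuous fun h : ℝ => 2 * |R| * h := by fun_prop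
    have h2 := (h1.tendsto 0).mono_left (nhdsWithin_le_nhds (s := Set.Ioi 0))
    exact h2.eventually (gt_mem_nhds (by simp))
  have e5 : ∀ᶠ h : ℝ in 𝓝[>] 0, 0 < h := self_mem_nhdsWithin
  obtain ⟨h, ⟨ho, hli⟩, h1, h2, h3, h4, h5⟩ := (hev.and (e1.and (e2.and (e3.and (e4.and e5))))).exists
  let c' : Cfg :=
    { ι := c.ι × Fin (M + 1)
      fin := inferInstance
      x := X h
      p := P h
      L := c.L
      p_pos := h1
      x_mem := h2
      orth := fun d hd => ho ⟨d, hd⟩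
      indep := hli
      qind := c.qind }
  refine ⟨c', rfl, ⟨Finset.Subset.refl _, fun d hd hd' => (hd' hd).elim, fun t ht => ?_⟩, ?_⟩
  · have h6 := h3 t ht
    rwa [hsum] at h6
  · intro T hT hcard
    rw [Fintype.linearIndependent_iff]
    intro g hg
    obtain ⟨i₀⟩ := c.nonempty
    let e : Fin T.card ≃ T := T.equivFin.symm
    let f : Fin T.card → ℂ := fun k => ex (e k * h)
    have hf : Function.Injective f := by
      intro k k' hk
      have h6 : |(e k : ℝ) * h - e k' * h| < 1 := by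
        rw [← sub_mul, abs_mul, abs_of_pos h5]
        refine lt_of_le_of_lt (mul_le_mul_of_nonneg_right ?_ h5.le) h4
        have := hT _ (e k).2
        have := hT _ (e k').2
        have := le_abs_self R
        have := abs_sub (e k : ℝ) (e k')
        linarith
      have h7 := mul_right_cancel₀ h5.ne' (ex_inj h6 hk)
      exact e.injective (Subtype.ext h7)
    have hv := Matrix.eq_zero_of_forall_pow_sum_mul_pow_eq_zero
      (v := fun k => g (e k) * ex (e k * c.x i₀)) hf (by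
        intro j
        have h6 := congrFun hg (i₀, ⟨j, by have := j.2; omega⟩)
        simp only [Finset.sum_apply, Pi.smul_apply, smul_eq_mul, Pi.zero_apply] at h6
        rw [← e.sum_comp] at h6
        rw [← h6]
        refine Finset.sum_congr rfl fun k _ => ?_
        simp only [f, c', X]
        rw [← ex_nat_mul, mul_assoc, ← ex_add]
        congr 2; ring)
    intro t
    have h6 := congrFun hv (e.symm t)
    simpa [ex_ne_zero] using h6

lemma analytic_ft {ι : Type} [Fintype ι] (x p : ι → ℝ) : AnalyticOnNhd ℝ (ft x p) Set.univ := by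
  intro t _
  have hex : ∀ s, AnalyticAt ℝ ex s := by
    intro s
    have h1 : AnalyticAt ℝ (fun t : ℝ => 2 * (Real.pi : ℂ) * Complex.I * (t : ℂ)) s :=
      analyticAt_const.mul (Complex.ofRealCLM.analyticAt s)
    exact (analyticAt_cexp.restrictScalars (𝕜 := ℝ)).comp h1
  have : ft x p = ∑ i, fun t => (p i : ℂ) * ex (t * x i) := by
    funext t; simp [ft]
  rw [this]
  refine Finset.analyticAt_sum _ fun i _ => analyticAt_const.mul ?_
  exact (hex _).comp (analyticAt_id.mul analyticAt_const)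

lemma finite_zeros {E : Type} [NormedAddCommGroup E] [NormedSpace ℝ E] {f : ℝ → E}
    (hf : AnalyticOnNhd ℝ f Set.univ) {t₀ : ℝ} (h : f t₀ ≠ 0) (R : ℝ) :
    {t | |t| ≤ R ∧ f t = 0}.Finite := by
  have h1 := hf.preimage_zero_mem_codiscrete h
  have h2 : f ⁻¹' {0}ᶜ ∈ codiscreteWithin (Set.Icc (-R) R) :=
    Filter.codiscreteWithin_mono (Set.subset_univ _) h1
  refine (isCompact_Icc.finite_sdiff_of_mem_codiscreteWithin h2).subset ?_
  rintro t ⟨ht, ht0⟩
  exact ⟨abs_le.1 ht, by simp [ht0]⟩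

lemma step_zero (c : Cfg) {R : ℝ} (hR0 : 0 < R) (hR : ∀ d ∈ dif c.L, |d| ≤ R)
    (hrich : Rich c R ((dif c.L).card + 2)) {η : ℝ} (hη : 0 < η) :
    ∃ c' : Cfg, c'.L = c.L ∧ Ext c c' R η ∧ ∀ t, |t| ≤ R → t ∉ dif c.L → c'.F t ≠ 0 := by
  classical
  let ftL : ℝ → (c.ι → ℝ) →ₗ[ℝ] ℂ := fun t =>
    { toFun := fun q => ft c.x q t
      map_add' := by intro q q'; simp [ft, add_mul, Finset.sum_add_distrib]
      map_smul' := by intro s q; simp [ft, Finset.mul_sum, mul_assoc] }
  let W : Submodule ℝ (c.ι → ℝ) := ⨅ d ∈ dif c.L, LinearMap.ker (ftL d)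
  have hW : ∀ q, q ∈ W ↔ ∀ d ∈ dif c.L, ft c.x q d = 0 := by
    intro q; simp [W, ftL, Submodule.mem_iInf]
  have hsurj : ∀ ξ, |ξ| ≤ R → ξ ∉ dif c.L → ∀ z : ℂ, ∃ q ∈ W, ft c.x q ξ = z := by
    intro ξ hξ hξd z
    have hξ0 : ξ ≠ 0 := fun h => hξd (h ▸ zero_mem_dif _)
    have hne : ξ ≠ -ξ := fun h => hξ0 (by linarith)
    have hξd' : -ξ ∉ dif c.L := fun h => hξd (by simpa using neg_mem_dif h)
    let T : Finset ℝ := insert ξ (insert (-ξ) (dif c.L))
    have hT : ∀ t ∈ T, |t| ≤ R := by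
      intro t ht
      simp only [T, Finset.mem_insert] at ht
      rcases ht with rfl | rfl | ht
      · exact hξ
      · simpa using hξ
      · exact hR t ht
    have hcard : T.card ≤ (dif c.L).card + 2 :=
      (Finset.card_insert_le _ _).trans (Nat.succ_le_succ (Finset.card_insert_le _ _))
    have hneg : ∀ t ∈ T, -t ∈ T := by
      intro t ht
      simp only [T, Finset.mem_insert] at ht ⊢
      rcases ht with rfl | rfl | ht
      · simp
      · simp
      · exact Or.inr (Or.inr (neg_mem_dif ht))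
    let σ : T → T := fun t => ⟨-t, hneg t t.2⟩
    let b : T → ℂ := fun t => if (t : ℝ) = ξ then z else if (t : ℝ) = -ξ then conj z else 0
    obtain ⟨q, hq⟩ := surj_real (hrich T hT hcard) (σ := σ) (b := b)
      (by intro t i; simp [σ, ex_neg]) (by
        intro t
        by_cases h1 : (t : ℝ) = ξ
        · simp [b, σ, h1, hne.symm]
        · by_cases h2 : (t : ℝ) = -ξ
          · simp [b, σ, h2, hne.symm]
          · have h3 : -(t : ℝ) ≠ ξ := fun h => h2 (by linarith)
            simp [b, σ, h1, h2, h3])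
    refine ⟨q, (hW q).2 fun d hd => ?_, ?_⟩
    · have h1 := hq ⟨d, by simp [T, hd]⟩
      have h2 : d ≠ ξ := fun h => hξd (h ▸ hd)
      have h3 : d ≠ -ξ := fun h => hξd' (h ▸ hd)
      simpa [b, h2, h3, ft] using h1
    · have h1 := hq ⟨ξ, by simp [T]⟩
      simpa [b, ft] using h1
  have hF0 : c.F 0 ≠ 0 := by
    have := c.orth 0 (zero_mem_dif _)
    simp only [if_true] at this
    rw [Cfg.F, this]; exact one_ne_zero
  have hZ := finite_zeros (analytic_ft c.x c.p) hF0 R
  obtain ⟨ξ₀, hξ₀, hξ₀'⟩ := (Set.Icc_infinite (show -R < R by linarith)).exists_notMem_finite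
    (hZ.union (dif c.L).finite_toSet)
  have hξ₀R : |ξ₀| ≤ R := abs_le.2 hξ₀
  have hξ₀F : c.F ξ₀ ≠ 0 := fun h => hξ₀' (Or.inl ⟨hξ₀R, h⟩)
  have hξ₀d : ξ₀ ∉ dif c.L := fun h => hξ₀' (Or.inr h)
  let Z : Set ℝ := insert ξ₀ {t | (|t| ≤ R ∧ ft c.x c.p t = 0) ∧ t ∉ dif c.L}
  have hZf : Z.Finite := (hZ.subset fun t ht => ht.1).insert _
  have : Finite Z := hZf
  let w : ℝ → ℂ := fun t => if c.F t = 0 then 1 else c.F t
  have hw : ∀ t, w t ≠ 0 := by
    intro t; by_cases h : c.F t = 0 <;> simp [w, h]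
  let φ : Z → Module.Dual ℝ (c.ι → ℝ) := fun t =>
    Complex.imLm ∘ₗ (LinearMap.mulLeft ℝ (conj (w t))) ∘ₗ ftL t
  obtain ⟨q, hqW, hq⟩ := Module.Dual.exists_forall_mem_ne_zero_of_forall_exists W φ (by
    intro t
    have h1 : |(t : ℝ)| ≤ R ∧ (t : ℝ) ∉ dif c.L := by
      rcases t.2 with h | h
      · rw [h]; exact ⟨hξ₀R, hξ₀d⟩
      · exact ⟨h.1.1, h.2⟩
    obtain ⟨q, hqW, hq⟩ := hsurj t h1.1 h1.2 (Complex.I * w t)
    refine ⟨q, hqW, ?_⟩
    have h2 : conj (w t) * (Complex.I * w t) = (Complex.normSq (w t) : ℂ) * Complex.I := by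
      rw [Complex.normSq_eq_conj_mul_self]; ring
    simp only [φ, ftL, LinearMap.comp_apply, LinearMap.coe_mk, AddHom.coe_mk, hq,
      LinearMap.mulLeft_apply, h2]
    simpa using hw t)
  have hq' : ∀ t : Z, (conj (w t) * ft c.x q t).im ≠ 0 := fun t => hq t
  let r : ℝ → ℝ := fun t => (conj (c.F t) * ft c.x q t).im
  have hr : AnalyticOnNhd ℝ r Set.univ := by
    intro t ht
    have h1 : AnalyticAt ℝ (fun t => conj (c.F t)) t :=
      (Complex.conjCLE.toContinuousLinearMap.analyticAt _).comp (analytic_ft c.x c.p t ht)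
    exact (Complex.imCLM.analyticAt _).comp (h1.mul (analytic_ft c.x q t ht))
  have hr0 : r ξ₀ ≠ 0 := by
    have := hq' ⟨ξ₀, Set.mem_insert _ _⟩
    simpa [w, hξ₀F, r] using this
  have hN := (finite_zeros hr hr0 R).image fun t => -(c.F t / ft c.x q t).re
  let P : ℝ → c.ι → ℝ := fun s i => c.p i + s * q i
  have hP : Tendsto P (𝓝[≠] 0) (𝓝 c.p) := by
    have h1 : Continuous P := by fun_prop
    have h2 : P 0 = c.p := by funext i; simp [P]
    rw [← h2]
    exact (h1.tendsto 0).mono_left nhdsWithin_le_nhds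
  have e1 := pos_eventually hP c.p_pos
  have e2 := ft_close (tendsto_const_nhds (x := c.x)) hP R hη
  have e3 := (nhdsNE_le_cofinite (0 : ℝ)) hN.compl_mem_cofinite
  obtain ⟨s, h1, h2, h3⟩ := (e1.and (e2.and e3)).exists
  have hft : ∀ t, ft c.x (P s) t = c.F t + s * ft c.x q t := by
    intro t
    simp [ft, Cfg.F, P, add_mul, Finset.sum_add_distrib, Finset.mul_sum, mul_assoc]
  let c' : Cfg :=
    { ι := c.ι
      fin := c.fin
      x := c.x
      p := P s
      L := c.L
      p_pos := h1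
      x_mem := c.x_mem
      orth := by
        intro d hd
        rw [hft, (hW q).1 hqW d hd, mul_zero, add_zero]
        exact c.orth d hd
      indep := c.indep
      qind := c.qind }
  refine ⟨c', rfl, ⟨Finset.Subset.refl _, fun d hd hd' => (hd' hd).elim, h2⟩, ?_⟩
  intro t ht htd h0
  have h4 : c.F t + s * ft c.x q t = 0 := by rw [← hft]; exact h0
  have h5 : c.F t = -(s * ft c.x q t) := by linear_combination h4
  have hQ : ft c.x q t ≠ 0 := by
    intro h6
    have h7 : c.F t = 0 := by rw [h5, h6]; simp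
    apply hq' ⟨t, Or.inr ⟨⟨ht, h7⟩, htd⟩⟩
    simp [h6]
  apply h3
  refine ⟨t, ⟨ht, ?_⟩, ?_⟩
  · simp only [r, h5]
    simp; ring
  · simp only [h5]
    rw [neg_div, mul_div_assoc, div_self hQ]; simp

lemma step_nozero (c : Cfg) (R : ℝ) {η : ℝ} (hη : 0 < η) :
    ∃ c' : Cfg, c'.L = c.L ∧ Ext c c' R η ∧ ∀ t, |t| ≤ R → t ∉ dif c.L → c'.F t ≠ 0 := by
  obtain ⟨B, hB⟩ := ((dif c.L).image fun d => |d|).bddAbove
  let R' := max (max R 1) B
  have h1 : R ≤ R' := (le_max_left _ _).trans (le_max_left _ _)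
  have h2 : 0 < R' := lt_of_lt_of_le one_pos ((le_max_right _ _).trans (le_max_left _ _))
  have h3 : ∀ d ∈ dif c.L, |d| ≤ R' := fun d hd =>
    (hB (Finset.mem_coe.2 (Finset.mem_image_of_mem _ hd))).trans (le_max_right _ _)
  obtain ⟨c₁, hL, hE, hrich⟩ := step_split c R' ((dif c.L).card + 2) (half_pos hη)
  obtain ⟨c₂, hL2, hE2, hz⟩ := step_zero c₁ h2 (by rw [hL]; exact h3) (by rw [hL]; exact hrich)
    (half_pos hη)
  refine ⟨c₂, hL2.trans hL, (hE.trans hE2).mono h1 (by linarith), fun t ht htd => ?_⟩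
  exact hz t (ht.trans h1) (by rw [hL]; exact htd)

end Pool.Agent.H590Z.Fug
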